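import Mathlib

/-! Polynomials with a unique monomial of maximal weight. -/

namespace MP967.Sym

open MvPolynomial

variable {σ : Type}

/-- `e` is the only exponent of `p` of maximal weight. -/
def UniqMax (w : σ → ℤ) (p : MvPolynomial σ ℚ) (e : σ →₀ ℕ) : Prop :=
  coeff e p ≠ 0 ∧ ∀ e', coeff e' p ≠ 0 → e' ≠ e →
    e'.sum (fun x k => (k : ℤ) * w x) < e.sum (fun x k => (k : ℤ) * w x)

theorem sb9_sum_add (w : σ → ℤ) (a b : σ →₀ ℕ) :
    (a + b).sum (fun x k => (k : ℤ) * w x) =
      a.sum (fun x k => (k : ℤ) * w x) + b.sum (fun x k => (k : ℤ) * w x) := by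
  classical
  refine Finsupp.sum_add_index' (fun x => by simp) fun x k l => ?_
  push_cast
  ring

theorem sb9_pair {w : σ → ℤ} {p p' : MvPolynomial σ ℚ} {e e' : σ →₀ ℕ} (h : UniqMax w p e)
    (h' : UniqMax w p' e') {a b : σ →₀ ℕ} (ha : coeff a p ≠ 0) (hb : coeff b p' ≠ 0)
    (hab : ¬ (a = e ∧ b = e')) :
    (a + b).sum (fun x k => (k : ℤ) * w x) < (e + e').sum (fun x k => (k : ℤ) * w x) := by
  rw [sb9_sum_add, sb9_sum_add]
  by_cases h1 : a = e
  · have h2 : b ≠ e' := fun h3 => hab ⟨h1, h3⟩
    have h4 := h'.2 b hb h2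
    rw [h1]
    linarith
  · have h4 := h.2 a ha h1
    by_cases h2 : b = e'
    · rw [h2]
      linarith
    · have h5 := h'.2 b hb h2
      linarith

theorem UniqMax.mul {w : σ → ℤ} {p p' : MvPolynomial σ ℚ} {e e' : σ →₀ ℕ} (h : UniqMax w p e)
    (h' : UniqMax w p' e') : UniqMax w (p * p') (e + e') := by
  classical
  constructor
  · rw [coeff_mul, Finset.sum_eq_single (e, e')]
    · exact mul_ne_zero h.1 h'.1
    · rintro ⟨a, b⟩ hab hne
      rw [Finset.HasAntidiagonal.mem_antidiagonal] at hab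
      by_contra hc
      have ha : coeff a p ≠ 0 := left_ne_zero_of_mul hc
      have hb : coeff b p' ≠ 0 := right_ne_zero_of_mul hc
      have h1 := sb9_pair h h' ha hb (fun h2 => hne (Prod.ext h2.1 h2.2))
      simp only at hab
      rw [hab] at h1
      exact lt_irrefl _ h1
    · intro hn
      refine absurd ?_ hn
      rw [Finset.HasAntidiagonal.mem_antidiagonal]
  · intro d hd hne
    rw [coeff_mul] at hd
    obtain ⟨⟨a, b⟩, hab, hc⟩ := Finset.exists_ne_zero_of_sum_ne_zero hd
    rw [Finset.HasAntidiagonal.mem_antidiagonal] at hab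
    simp only at hab
    have ha : coeff a p ≠ 0 := left_ne_zero_of_mul hc
    have hb : coeff b p' ≠ 0 := right_ne_zero_of_mul hc
    have h1 := sb9_pair h h' ha hb (fun h2 => hne (by rw [← hab, h2.1, h2.2]))
    rw [hab] at h1
    exact h1

theorem UniqMax.prod {w : σ → ℤ} (L : Multiset (MvPolynomial σ ℚ × (σ →₀ ℕ)))
    (h : ∀ x ∈ L, UniqMax w x.1 x.2) :
    UniqMax w (L.map Prod.fst).prod (L.map Prod.snd).sum := by
  classical
  induction L using Multiset.induction_on with
  | empty =>
    rw [Multiset.map_zero, Multiset.map_zero, Multiset.prod_zero, Multiset.sum_zero]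
    constructor
    · rw [coeff_zero_one]
      exact one_ne_zero
    · intro e' he' hne
      rw [coeff_one] at he'
      exact absurd (ite_ne_right_iff.1 he').1.symm hne
  | cons a L ih =>
    rw [Multiset.map_cons, Multiset.map_cons, Multiset.prod_cons, Multiset.sum_cons]
    exact (h a (Multiset.mem_cons_self a L)).mul
      (ih fun x hx => h x (Multiset.mem_cons_of_mem hx))

/-- Different leading exponents give linearly independent polynomials. -/
theorem card_le_finrank {w : σ → ℤ} {W : Submodule ℚ (MvPolynomial σ ℚ)} (hW : W.FG)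
    (T : Finset (σ →₀ ℕ)) (h : ∀ e ∈ T, ∃ p ∈ W, UniqMax w p e) :
    T.card ≤ Module.finrank ℚ ↥W := by
  classical
  have hfin : Module.Finite ℚ W := Module.Finite.iff_fg.2 hW
  choose p hpW hp using h
  let v : T → W := fun e => ⟨p e.1 e.2, hpW e.1 e.2⟩
  have hli : LinearIndependent ℚ v := by
    rw [Fintype.linearIndependent_iff]
    intro g hg
    by_contra hc
    push Not at hc
    obtain ⟨i0, hi0⟩ := hc
    obtain ⟨i, hi, hmax⟩ := Finset.exists_max_image
      (Finset.univ.filter fun i : T => g i ≠ 0)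
      (fun i : T => i.1.sum (fun x k => (k : ℤ) * w x)) ⟨i0, by simp [hi0]⟩
    rw [Finset.mem_filter] at hi
    have h1 : (∑ j : T, g j • p j.1 j.2) = 0 := by
      have h2 := congrArg (fun x : W => (x : MvPolynomial σ ℚ)) hg
      simpa [v] using h2
    have h3 : coeff i.1 (∑ j : T, g j • p j.1 j.2) = 0 := by rw [h1, coeff_zero]
    rw [coeff_sum, Finset.sum_eq_single i] at h3
    · rw [coeff_smul, smul_eq_mul] at h3
      rcases mul_eq_zero.1 h3 with h4 | h4
      · exact hi.2 h4
      · exact (hp i.1 i.2).1 h4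
    · intro j _ hj
      rw [coeff_smul, smul_eq_mul]
      by_contra hc
      have hg' : g j ≠ 0 := left_ne_zero_of_mul hc
      have hcf : coeff i.1 (p j.1 j.2) ≠ 0 := right_ne_zero_of_mul hc
      have h4 := (hp j.1 j.2).2 i.1 hcf (fun h5 => hj (Subtype.ext h5.symm))
      have h5 := hmax j (Finset.mem_filter.2 ⟨Finset.mem_univ j, hg'⟩)
      exact absurd h4 (not_lt.2 h5)
    · intro hn
      exact absurd (Finset.mem_univ i) hn
  have h6 := hli.fintype_card_le_finrank
  rwa [Fintype.card_coe] at h6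

end MP967.Sym
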