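import Pool.Agent.Lib.MP_967fd7_co.Sym.QLow
import Pool.Agent.Lib.MP_967fd7_co.Sym.UniqMax

/-!
The leading monomials of the minors.

`w (r, g j) = (r + 1) * j`, `w (r, h j) = - (r + 1) * (j + 1) + K * (m + 1 - j)` with a large `K`:
for a minor with `k - d` upper rows `a` and `l + d` lower rows `b` (both strictly increasing) the
Laplace expansion is the sum over the `d`-subsets `J` of the first `k` columns of
`± det g_([k] ∖ J) (a) det (h_J, g_[l]) (b)`; the term with `J = {0, …, d-1}` beats the others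
because of `K`, and inside it the increasing assignments `a → g d, …, g (k-1)` and
`b → h (d-1), …, h 0, g 0, …, g (l-1)` are the unique maxima by the rearrangement inequality. -/

namespace MP967.Sym

open MvPolynomial MP967.Rep

variable {N m : ℕ}

/-- The weights of the variables. -/
def wv (N m : ℕ) (p : Fin N × Cols m) : ℤ :=
  match p.2 with
  | Sum.inl c => ((p.1 : ℕ) + 1 : ℤ) * ((c : ℕ) : ℤ)
  | Sum.inr c => -((p.1 : ℕ) + 1 : ℤ) * (((c : ℕ) : ℤ) + 1) +
      (4 * (N + 1) * (m + 2) * (2 * m + 4) : ℤ) * ((m : ℤ) + 1 - ((c : ℕ) : ℤ))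

/-! ### `exists_uniqMax` -/

/-- The variable at the row `r` and the column `x`. -/
def sb10_vr (m : ℕ) {k l d : ℕ} (a : Fin (k - d) → Fin N) (b : Fin (l + d) → Fin N) :
    Fin (k - d) ⊕ Fin (l + d) → Fin k ⊕ Fin l → Fin N × Cols m
  | Sum.inl i, Sum.inl c => (a i, gc m c)
  | Sum.inl i, Sum.inr c => (a i, gc m c)
  | Sum.inr j, Sum.inl c => (b j, hc m c)
  | Sum.inr j, Sum.inr c => (b j, gc m c)

/-- No upper row goes to the second block. -/
def sb10_ok {k l d : ℕ} (θ : Fin k ⊕ Fin l ≃ Fin (k - d) ⊕ Fin (l + d)) : Prop :=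
  ∀ c : Fin l, (θ (Sum.inr c)).isRight = true

/-- The positions of the columns for the lower rows. -/
def sb10_pos {k l : ℕ} : Fin k ⊕ Fin l → ℤ
  | Sum.inl c => -(((c : ℕ) : ℤ) + 1)
  | Sum.inr c => ((c : ℕ) : ℤ)

theorem sb10_pos_inj {k l : ℕ} {x y : Fin k ⊕ Fin l} (h : sb10_pos x = sb10_pos y) : x = y := by
  rcases x with c | c <;> rcases y with c' | c' <;> simp only [sb10_pos] at h
  · exact congrArg Sum.inl (Fin.ext (by omega))
  · exfalso
    omega
  · exfalso
    omega
  · exact congrArg Sum.inr (Fin.ext (by omega))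

theorem sb10_swap {C R : Type} [Fintype C] [DecidableEq C] (θ : C ≃ R) (f : R → C → ℤ) {x y : C}
    (hxy : x ≠ y)
    (h : ∑ c, f (((Equiv.swap x y).trans θ) c) c ≤ ∑ c, f (θ c) c) :
    f (θ y) x + f (θ x) y ≤ f (θ x) x + f (θ y) y := by
  have h1 : ∑ c, (f (((Equiv.swap x y).trans θ) c) c - f (θ c) c) ≤ 0 := by
    rw [Finset.sum_sub_distrib]
    linarith
  have h2 : ∑ c, (f (((Equiv.swap x y).trans θ) c) c - f (θ c) c) =
      ∑ c ∈ {x, y}, (f (((Equiv.swap x y).trans θ) c) c - f (θ c) c) := by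
    refine (Finset.sum_subset (Finset.subset_univ _) fun c _ hc => ?_).symm
    rw [Finset.mem_insert, Finset.mem_singleton, not_or] at hc
    rw [Equiv.trans_apply, Equiv.swap_apply_of_ne_of_ne hc.1 hc.2, sub_self]
  rw [h2, Finset.sum_pair hxy, Equiv.trans_apply, Equiv.trans_apply, Equiv.swap_apply_left,
    Equiv.swap_apply_right] at h1
  linarith

theorem sb10_gap {n : ℕ} {f : Fin n → ℤ} (hf : ∀ i j, i < j → f i < f j) (t : ℕ) :
    ∀ i j : Fin n, (j : ℕ) = i + t → (t : ℤ) ≤ f j - f i := by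
  induction t with
  | zero =>
    intro i j h
    have : j = i := Fin.ext (by omega)
    subst this
    simp
  | succ t ih =>
    intro i j h
    have hlt : (i : ℕ) + t < n := by have := j.2; omega
    have h1 := ih i ⟨(i : ℕ) + t, hlt⟩ rfl
    have h2 := hf ⟨(i : ℕ) + t, hlt⟩ j (Fin.lt_def.2 (by simp only; omega))
    push_cast
    omega

theorem sb10_mono {n : ℕ} {f : Fin n → ℤ} (hf : ∀ i j, i < j → f i < f j) {L : ℤ}
    (h1 : ∀ i, L ≤ f i) (h2 : ∀ i, f i < L + n) (i : Fin n) : f i = L + (i : ℕ) := by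
  have hi := i.2
  have h3 := sb10_gap hf i ⟨0, by omega⟩ i (by simp)
  have h4 := sb10_gap hf (n - 1 - i) i ⟨n - 1, by omega⟩ (by simp only; omega)
  have h5 := h1 ⟨0, by omega⟩
  have h6 := h2 ⟨n - 1, by omega⟩
  have h7 : ((n - 1 - (i : ℕ) : ℕ) : ℤ) = (n : ℤ) - 1 - (i : ℕ) := by omega
  rw [h7] at h4
  omega

section sb10

variable {k l d : ℕ} (a : Fin (k - d) → Fin N) (b : Fin (l + d) → Fin N)

/-- The weight of an entry. -/
def sb10_f (m : ℕ) (r : Fin (k - d) ⊕ Fin (l + d)) (x : Fin k ⊕ Fin l) : ℤ :=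
  wv N m (sb10_vr m a b r x)

theorem sb10_f_upper (hk : k ≤ m + 1) (i : Fin (k - d)) (c : Fin k) :
    sb10_f (l := l) a b m (Sum.inl i) (Sum.inl c) = ((a i : ℕ) + 1 : ℤ) * ((c : ℕ) : ℤ) := by
  have h : (c : ℕ) % (m + 1) = c := Nat.mod_eq_of_lt (by have := c.2; omega)
  simp only [sb10_f, sb10_vr, wv, gc, Fin.ofNat, h]

theorem sb10_f_h (hk : k ≤ m + 1) (j : Fin (l + d)) (c : Fin k) :
    sb10_f a b m (Sum.inr j) (Sum.inl c) = -((b j : ℕ) + 1 : ℤ) * (((c : ℕ) : ℤ) + 1) +
      (4 * (N + 1) * (m + 2) * (2 * m + 4) : ℤ) * ((m : ℤ) + 1 - ((c : ℕ) : ℤ)) := by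
  have h : (c : ℕ) % (m + 1) = c := Nat.mod_eq_of_lt (by have := c.2; omega)
  simp only [sb10_f, sb10_vr, wv, hc, Fin.ofNat, h]

theorem sb10_f_g (hl : l ≤ m + 1) (j : Fin (l + d)) (c : Fin l) :
    sb10_f a b m (Sum.inr j) (Sum.inr c) = ((b j : ℕ) + 1 : ℤ) * ((c : ℕ) : ℤ) := by
  have h : (c : ℕ) % (m + 1) = c := Nat.mod_eq_of_lt (by have := c.2; omega)
  simp only [sb10_f, sb10_vr, wv, gc, Fin.ofNat, h]

/-- The bonus of a column. -/
def sb10_bon (N m : ℕ) : Fin k ⊕ Fin l → ℤ
  | Sum.inl c => (4 * (N + 1) * (m + 2) * (2 * m + 4) : ℤ) * ((m : ℤ) + 1 - ((c : ℕ) : ℤ))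
  | Sum.inr _ => 0

theorem sb10_f_lower (hk : k ≤ m + 1) (hl : l ≤ m + 1) (j : Fin (l + d)) (x : Fin k ⊕ Fin l) :
    sb10_f a b m (Sum.inr j) x = ((b j : ℕ) + 1 : ℤ) * sb10_pos x + sb10_bon N m x := by
  rcases x with c | c
  · rw [sb10_f_h a b hk, sb10_pos, sb10_bon]
    ring
  · rw [sb10_f_g a b hl, sb10_pos, sb10_bon, add_zero]

/-- Maximal assignments are determined. -/
theorem sb10_max (ha : StrictMono a) (hb : StrictMono b) (hd : d ≤ k) (hk : k ≤ m + 1)
    (hl : l ≤ m + 1) (θ : Fin k ⊕ Fin l ≃ Fin (k - d) ⊕ Fin (l + d)) (hok : sb10_ok θ)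
    (hmax : ∀ θ' : Fin k ⊕ Fin l ≃ Fin (k - d) ⊕ Fin (l + d), sb10_ok θ' →
      ∑ c, sb10_f a b m (θ' c) c ≤ ∑ c, sb10_f a b m (θ c) c) :
    (∀ i : Fin (k - d), ∃ c : Fin k, (c : ℕ) = d + i ∧ θ.symm (Sum.inl i) = Sum.inl c) ∧
      ∀ j : Fin (l + d), sb10_pos (θ.symm (Sum.inr j)) = -(d : ℤ) + (j : ℕ) := by
  classical
  -- the three kinds of swaps
  have hA : ∀ (i i' : Fin (k - d)) (c c' : Fin k), i < i' → θ (Sum.inl c) = Sum.inl i →
      θ (Sum.inl c') = Sum.inl i' → c < c' := by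
    intro i i' c c' hii h1 h2
    by_contra hcon
    have hne : c ≠ c' := by
      rintro rfl
      rw [h1] at h2
      exact (ne_of_lt hii) (Sum.inl_injective h2)
    have hlt : (c' : ℕ) < c := by
      have := Fin.lt_def.not.1 hcon
      have h3 : (c : ℕ) ≠ c' := fun h => hne (Fin.ext h)
      omega
    have h3 := sb10_swap θ (sb10_f a b m) (x := Sum.inl c) (y := Sum.inl c')
      (fun h => hne (Sum.inl_injective h)) (hmax _ (by
        intro q
        rw [Equiv.trans_apply, Equiv.swap_apply_of_ne_of_ne (by simp) (by simp)]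
        exact hok q))
    rw [h1, h2, sb10_f_upper a b hk, sb10_f_upper a b hk, sb10_f_upper a b hk,
      sb10_f_upper a b hk] at h3
    have h4 : ((a i : ℕ) : ℤ) < ((a i' : ℕ) : ℤ) := by exact_mod_cast Fin.lt_def.1 (ha hii)
    have h5 : ((c' : ℕ) : ℤ) < ((c : ℕ) : ℤ) := by exact_mod_cast hlt
    nlinarith [mul_pos (sub_pos.2 h4) (sub_pos.2 h5)]
  have hB : ∀ (j j' : Fin (l + d)) (x x' : Fin k ⊕ Fin l), j < j' → θ x = Sum.inr j →
      θ x' = Sum.inr j' → sb10_pos x < sb10_pos x' := by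
    intro j j' x x' hjj h1 h2
    by_contra hcon
    have hne : x ≠ x' := by
      rintro rfl
      rw [h1] at h2
      exact (ne_of_lt hjj) (Sum.inr_injective h2)
    have hlt : sb10_pos x' < sb10_pos x := by
      have h3 : sb10_pos x ≠ sb10_pos x' := fun h => hne (sb10_pos_inj h)
      omega
    have h3 := sb10_swap θ (sb10_f a b m) (x := x) (y := x') hne (hmax _ (by
        intro q
        rw [Equiv.trans_apply]
        by_cases hq1 : Sum.inr q = x
        · rw [hq1, Equiv.swap_apply_left, h2]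
          rfl
        · by_cases hq2 : Sum.inr q = x'
          · rw [hq2, Equiv.swap_apply_right, h1]
            rfl
          · rw [Equiv.swap_apply_of_ne_of_ne hq1 hq2]
            exact hok q))
    rw [h1, h2, sb10_f_lower a b hk hl, sb10_f_lower a b hk hl, sb10_f_lower a b hk hl,
      sb10_f_lower a b hk hl] at h3
    have h4 : ((b j : ℕ) : ℤ) < ((b j' : ℕ) : ℤ) := by exact_mod_cast Fin.lt_def.1 (hb hjj)
    nlinarith [mul_pos (sub_pos.2 h4) (sub_pos.2 hlt)]
  have hC : ∀ (i : Fin (k - d)) (j : Fin (l + d)) (c c' : Fin k), θ (Sum.inl c) = Sum.inl i →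
      θ (Sum.inl c') = Sum.inr j → c' < c := by
    intro i j c c' h1 h2
    by_contra hcon
    have hne : c ≠ c' := by
      rintro rfl
      rw [h1] at h2
      exact Sum.inl_ne_inr h2
    have hlt : (c : ℕ) < c' := by
      have := Fin.lt_def.not.1 hcon
      have h3 : (c : ℕ) ≠ c' := fun h => hne (Fin.ext h)
      omega
    have h3 := sb10_swap θ (sb10_f a b m) (x := Sum.inl c) (y := Sum.inl c')
      (fun h => hne (Sum.inl_injective h)) (hmax _ (by
        intro q
        rw [Equiv.trans_apply, Equiv.swap_apply_of_ne_of_ne (by simp) (by simp)]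
        exact hok q))
    rw [h1, h2, sb10_f_h a b hk, sb10_f_h a b hk, sb10_f_upper a b hk,
      sb10_f_upper a b hk] at h3
    have h5 : ((c : ℕ) : ℤ) < ((c' : ℕ) : ℤ) := by exact_mod_cast hlt
    have h6 : (0 : ℤ) < ((a i : ℕ) + 1 : ℤ) + ((b j : ℕ) + 1 : ℤ) +
        (4 * (N + 1) * (m + 2) * (2 * m + 4) : ℤ) := by positivity
    nlinarith [mul_pos h6 (sub_pos.2 h5)]
  -- the columns `h`
  have hcard : (Finset.univ.filter fun c : Fin k => (θ (Sum.inl c)).isRight = true).card = d := by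
    have h1 : ∑ x : Fin k ⊕ Fin l, (if (θ x).isRight = true then 1 else 0) =
        ∑ r : Fin (k - d) ⊕ Fin (l + d), (if r.isRight = true then 1 else 0) :=
      Equiv.sum_comp θ fun r => if r.isRight = true then 1 else 0
    rw [Fintype.sum_sum_type, Fintype.sum_sum_type] at h1
    rw [Finset.sum_congr rfl fun c _ => if_pos (hok c)] at h1
    simp only [Sum.isRight_inl, Sum.isRight_inr, Bool.false_eq_true, if_false, if_true,
      Finset.sum_const, Finset.card_univ, Fintype.card_fin, smul_eq_mul, mul_one,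
      mul_zero] at h1
    rw [Finset.card_filter]
    omega
  set J := Finset.univ.filter fun c : Fin k => (θ (Sum.inl c)).isRight = true with hJ
  have hmem : ∀ c, c ∈ J ↔ ∃ j, θ (Sum.inl c) = Sum.inr j := by
    intro c
    rw [hJ, Finset.mem_filter, Sum.isRight_iff]
    simp
  have hnot : ∀ c, c ∉ J → ∃ i, θ (Sum.inl c) = Sum.inl i := by
    intro c hc
    rcases hx : θ (Sum.inl c) with i | j
    · exact ⟨i, rfl⟩
    · exact (hc ((hmem c).2 ⟨j, hx⟩)).elim
  have hJ1 : ∀ c, c ∈ J → (c : ℕ) < d := by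
    intro c hc
    have hsub : Finset.Iic c ⊆ J := by
      intro c' hc'
      by_contra hcon
      obtain ⟨i, hi⟩ := hnot c' hcon
      obtain ⟨j, hj⟩ := (hmem c).1 hc
      have h1 := hC i j c' c hi hj
      exact absurd (Finset.mem_Iic.1 hc') (not_le.2 h1)
    have := Finset.card_le_card hsub
    rw [Fin.card_Iic, hcard] at this
    omega
  have hJ2 : ∀ c, c ∉ J → d ≤ (c : ℕ) := by
    intro c hc
    have hsub : J ⊆ Finset.Iio c := by
      intro c' hc'
      obtain ⟨i, hi⟩ := hnot c hc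
      obtain ⟨j, hj⟩ := (hmem c').1 hc'
      exact Finset.mem_Iio.2 (hC i j c c' hi hj)
    have := Finset.card_le_card hsub
    rwa [Fin.card_Iio, hcard] at this
  constructor
  · -- upper rows
    have hcA : ∀ i : Fin (k - d), ∃ c : Fin k, θ.symm (Sum.inl i) = Sum.inl c := by
      intro i
      rcases hx : θ.symm (Sum.inl i) with c | c
      · exact ⟨c, rfl⟩
      · exfalso
        have h1 := hok c
        rw [← hx, Equiv.apply_symm_apply] at h1
        simp at h1
    choose cA hcA using hcA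
    have hθ : ∀ i, θ (Sum.inl (cA i)) = Sum.inl i := fun i => by
      rw [← hcA i, Equiv.apply_symm_apply]
    have h1 := sb10_mono (f := fun i => ((cA i : ℕ) : ℤ)) (L := (d : ℤ))
      (fun i i' hii => by
        have := Fin.lt_def.1 (hA i i' (cA i) (cA i') hii (hθ i) (hθ i'))
        exact_mod_cast this)
      (fun i => by
        have : cA i ∉ J := fun h => by
          obtain ⟨j, hj⟩ := (hmem _).1 h
          rw [hθ i] at hj
          exact Sum.inl_ne_inr hj
        exact_mod_cast hJ2 _ this)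
      (fun i => by
        have := (cA i).2
        omega)
    intro i
    have h2 := h1 i
    exact ⟨cA i, by omega, hcA i⟩
  · -- lower rows
    have hθ : ∀ j, θ (θ.symm (Sum.inr j)) = Sum.inr j := fun j => Equiv.apply_symm_apply _ _
    exact sb10_mono (f := fun j => sb10_pos (θ.symm (Sum.inr j))) (L := -(d : ℤ))
      (fun j j' hjj => hB j j' _ _ hjj (hθ j) (hθ j'))
      (fun j => by
        have h1 := hθ j
        rcases hx : θ.symm (Sum.inr j) with c | c
        · rw [hx] at h1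
          have h2 := hJ1 c ((hmem c).2 ⟨j, h1⟩)
          simp only [sb10_pos]
          omega
        · simp only [sb10_pos]
          omega)
      (fun j => by
        rcases hx : θ.symm (Sum.inr j) with c | c
        · simp only [sb10_pos]
          push_cast
          omega
        · have := c.2
          simp only [sb10_pos]
          push_cast
          omega)

/-- The exponent of an assignment. -/
noncomputable def sb10_E (m : ℕ) (θ : Fin k ⊕ Fin l ≃ Fin (k - d) ⊕ Fin (l + d)) :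
    Fin N × Cols m →₀ ℕ := ∑ c, Finsupp.single (sb10_vr m a b (θ c) c) 1

theorem sb10_wt (θ : Fin k ⊕ Fin l ≃ Fin (k - d) ⊕ Fin (l + d)) :
    (sb10_E a b m θ).sum (fun x q => (q : ℤ) * wv N m x) = ∑ c, sb10_f a b m (θ c) c := by
  rw [sb10_E]
  rw [← Finsupp.sum_finsetSum_index (fun _ => by simp) (fun _ _ _ => by push_cast; ring)]
  refine Finset.sum_congr rfl fun c _ => ?_
  rw [Finsupp.sum_single_index (by simp)]
  simp [sb10_f]

/-- The product of the entries of an assignment. -/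
theorem sb10_term (θ : Fin k ⊕ Fin l ≃ Fin (k - d) ⊕ Fin (l + d)) (hok : sb10_ok θ) :
    ∏ c, ent N m (Sum.map a b (θ c)) c = monomial (sb10_E a b m θ) 1 := by
  rw [sb10_E, monomial_sum_one]
  refine Finset.prod_congr rfl fun c _ => ?_
  rcases c with c | c
  · rcases hx : θ (Sum.inl c) with i | j <;> rfl
  · rcases hx : θ (Sum.inr c) with i | j
    · have := hok c
      rw [hx] at this
      simp at this
    · rfl

theorem sb10_term0 (θ : Fin k ⊕ Fin l ≃ Fin (k - d) ⊕ Fin (l + d)) (hok : ¬ sb10_ok θ) :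
    ∏ c, ent N m (Sum.map a b (θ c)) c = 0 := by
  rw [sb10_ok] at hok
  push Not at hok
  obtain ⟨c, hc⟩ := hok
  refine Finset.prod_eq_zero (Finset.mem_univ (Sum.inr c)) ?_
  rcases hx : θ (Sum.inr c) with i | j
  · rfl
  · rw [hx] at hc
    simp at hc

end sb10

/-- A standard assignment. -/
def sb10_std {k l d : ℕ} (hd : d ≤ k) : Fin k ⊕ Fin l ≃ Fin (k - d) ⊕ Fin (l + d) :=
  ((((finCongr (Nat.sub_add_cancel hd).symm).trans finSumFinEquiv.symm).sumCongr
    (Equiv.refl (Fin l))).trans (Equiv.sumAssoc _ _ _)).trans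
      ((Equiv.refl (Fin (k - d))).sumCongr ((Equiv.sumComm _ _).trans finSumFinEquiv))

theorem sb10_std_ok {k l d : ℕ} (hd : d ≤ k) : sb10_ok (sb10_std (l := l) hd) := fun _ => rfl

theorem exists_uniqMax {k l : ℕ} (hkl : k ≤ l) (hl : l ≤ m + 1) {e : Fin N × Cols m →₀ ℕ}
    (he : Elem N m k l e) : ∃ p ∈ Q N m k l, UniqMax (wv N m) p e := by
  classical
  obtain ⟨d, hd, a, b, ha, hb, rfl⟩ := he
  have hk : k ≤ m + 1 := hkl.trans hl
  -- a maximal assignment
  obtain ⟨θm, hθm, hmax⟩ := Finset.exists_max_image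
    (Finset.univ.filter fun θ : Fin k ⊕ Fin l ≃ Fin (k - d) ⊕ Fin (l + d) => sb10_ok θ)
    (fun θ => ∑ c, sb10_f a b m (θ c) c)
    ⟨sb10_std hd, Finset.mem_filter.2 ⟨Finset.mem_univ _, sb10_std_ok hd⟩⟩
  have hokm : sb10_ok θm := (Finset.mem_filter.1 hθm).2
  have hmax' : ∀ θ' : Fin k ⊕ Fin l ≃ Fin (k - d) ⊕ Fin (l + d), sb10_ok θ' →
      ∑ c, sb10_f a b m (θ' c) c ≤ ∑ c, sb10_f a b m (θm c) c := fun θ' h =>
    hmax θ' (Finset.mem_filter.2 ⟨Finset.mem_univ _, h⟩)
  obtain ⟨hm1, hm2⟩ := sb10_max a b ha hb hd hk hl θm hokm hmax'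
  -- uniqueness
  have huniq : ∀ θ : Fin k ⊕ Fin l ≃ Fin (k - d) ⊕ Fin (l + d), sb10_ok θ →
      ∑ c, sb10_f a b m (θ c) c = ∑ c, sb10_f a b m (θm c) c → θ = θm := by
    intro θ hok heq
    obtain ⟨h1, h2⟩ := sb10_max a b ha hb hd hk hl θ hok
      (fun θ' h => (hmax' θ' h).trans heq.ge)
    have h3 : θ.symm = θm.symm := by
      refine Equiv.ext fun r => ?_
      rcases r with i | j
      · obtain ⟨c, hc, hc'⟩ := h1 i
        obtain ⟨c', hc1, hc1'⟩ := hm1 i
        rw [hc', hc1']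
        exact congrArg Sum.inl (Fin.ext (hc.trans hc1.symm))
      · exact sb10_pos_inj ((h2 j).trans (hm2 j).symm)
    rw [← Equiv.symm_symm θ, h3, Equiv.symm_symm]
  -- its exponent
  have hE : sb10_E a b m θm = ∑ i, Finsupp.single (a i, gc m (d + i)) 1 +
      ∑ j : Fin (l + d), Finsupp.single
        (b j, if (j : ℕ) < d then hc m (d - 1 - j) else gc m (j - d)) 1 := by
    have h1 : sb10_E a b m θm =
        ∑ r, Finsupp.single (sb10_vr m a b r (θm.symm r)) 1 := by
      rw [sb10_E, ← Equiv.sum_comp θm.symm]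
      refine Finset.sum_congr rfl fun r _ => ?_
      rw [Equiv.apply_symm_apply]
    rw [h1, Fintype.sum_sum_type]
    congr 1
    · refine Finset.sum_congr rfl fun i _ => ?_
      obtain ⟨c, hc, hc'⟩ := hm1 i
      rw [hc', sb10_vr, hc]
    · refine Finset.sum_congr rfl fun j _ => ?_
      have h2 := hm2 j
      rcases hx : θm.symm (Sum.inr j) with c | c
      · rw [hx] at h2
        simp only [sb10_pos] at h2
        rw [if_pos (by omega), sb10_vr]
        have h3 : (c : ℕ) = d - 1 - j := by omega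
        rw [h3]
      · rw [hx] at h2
        simp only [sb10_pos] at h2
        rw [if_neg (by omega), sb10_vr]
        have h3 : (c : ℕ) = j - d := by omega
        rw [h3]
  rw [← hE]
  -- the minor
  let ε : Fin k ⊕ Fin l ≃ Fin (k - d) ⊕ Fin (l + d) := sb10_std hd
  refine ⟨gen N m k l fun x => Sum.map a b (ε x), Submodule.subset_span ⟨_, rfl⟩, ?_⟩
  have hdet : gen N m k l (fun x => Sum.map a b (ε x)) =
      ∑ σ : Equiv.Perm (Fin k ⊕ Fin l), Equiv.Perm.sign σ •
        ∏ c, ent N m (Sum.map a b ((σ.trans ε) c)) c := by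
    rw [gen, Matrix.det_apply]
    rfl
  have hcoeff : ∀ e' : Fin N × Cols m →₀ ℕ,
      coeff e' (gen N m k l fun x => Sum.map a b (ε x)) =
      ∑ σ : Equiv.Perm (Fin k ⊕ Fin l),
        if sb10_ok (σ.trans ε) ∧ sb10_E a b m (σ.trans ε) = e' then
          ((Equiv.Perm.sign σ : ℤ) : ℚ) else 0 := by
    intro e'
    rw [hdet, coeff_sum]
    refine Finset.sum_congr rfl fun σ _ => ?_
    by_cases hok : sb10_ok (σ.trans ε)
    · rw [sb10_term a b _ hok, Units.smul_def, coeff_smul, coeff_monomial]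
      by_cases hEq : sb10_E a b m (σ.trans ε) = e'
      · rw [if_pos hEq, if_pos ⟨hok, hEq⟩]
        simp
      · rw [if_neg hEq, if_neg fun h => hEq h.2, smul_zero]
    · rw [sb10_term0 a b _ hok, smul_zero, coeff_zero, if_neg fun h => hok h.1]
  constructor
  · rw [hcoeff, Finset.sum_eq_single (θm.trans ε.symm)]
    · have h1 : (θm.trans ε.symm).trans ε = θm := by
        refine Equiv.ext fun x => ?_
        simp
      rw [h1, if_pos ⟨hokm, rfl⟩]
      rcases Int.units_eq_one_or (Equiv.Perm.sign (θm.trans ε.symm)) with h | h <;> rw [h] <;>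
        simp
    · intro σ _ hσ
      rw [if_neg]
      rintro ⟨hok, hEq⟩
      refine hσ ?_
      have h1 := huniq (σ.trans ε) hok (by rw [← sb10_wt, ← sb10_wt, hEq])
      rw [← h1]
      refine Equiv.ext fun x => ?_
      simp
    · intro h
      exact (h (Finset.mem_univ _)).elim
  · intro e' he' hne
    rw [hcoeff] at he'
    obtain ⟨σ, -, hσ⟩ := Finset.exists_ne_zero_of_sum_ne_zero he'
    have h1 : sb10_ok (σ.trans ε) ∧ sb10_E a b m (σ.trans ε) = e' := by
      by_contra hcon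
      exact hσ (if_neg hcon)
    rw [← h1.2, sb10_wt, sb10_wt]
    refine lt_of_le_of_ne (hmax' _ h1.1) fun heq => hne ?_
    rw [← h1.2, huniq _ h1.1 heq]

/-- Membership in a product of submodules. -/
theorem sb11_prod {ι : Type} (L : Multiset ι) (p : ι → Pol N (Cols m))
    (F : ι → Submodule ℚ (Pol N (Cols m))) (h : ∀ x ∈ L, p x ∈ F x) :
    (L.map p).prod ∈ (L.map F).prod := by
  induction L using Multiset.induction_on with
  | empty =>
    rw [Multiset.map_zero, Multiset.map_zero, Multiset.prod_zero, Multiset.prod_zero]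
    exact Submodule.one_le.1 le_rfl
  | cons x L ih =>
    rw [Multiset.map_cons, Multiset.map_cons, Multiset.prod_cons, Multiset.prod_cons]
    exact Submodule.mul_mem_mul (h x (Multiset.mem_cons_self x L))
      (ih fun y hy => h y (Multiset.mem_cons_of_mem hy))

theorem exists_uniqMax_P {s t : Multiset ℕ} (hs : ∀ k ∈ s, k ≤ m + 1) (ht : ∀ k ∈ t, k ≤ m + 1)
    {e : Fin N × Cols m →₀ ℕ} (he : e ∈ Fam N m s t) : ∃ p ∈ P N m s t, UniqMax (wv N m) p e := by
  classical
  obtain ⟨L, hL, hE, rfl⟩ := he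
  have h1 : ∀ x ∈ L, x.1.1 ≤ m + 1 := by
    intro x hx
    by_cases h0 : x.1.1 = 0
    · rw [h0]
      exact Nat.zero_le _
    · apply hs
      rw [← hL.1, Multiset.mem_filter]
      exact ⟨Multiset.mem_map_of_mem _ (Multiset.mem_map_of_mem _ hx), h0⟩
  have h2 : ∀ x ∈ L, x.1.2 ≤ m + 1 := by
    intro x hx
    by_cases h0 : x.1.2 = 0
    · rw [h0]
      exact Nat.zero_le _
    · apply ht
      rw [← hL.2, Multiset.mem_filter]
      exact ⟨Multiset.mem_map_of_mem _ (Multiset.mem_map_of_mem _ hx), h0⟩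
  have h3 : ∀ x : (ℕ × ℕ) × (Fin N × Cols m →₀ ℕ), ∃ p : Pol N (Cols m), x ∈ L →
      p ∈ QQ N m x.1 ∧ UniqMax (wv N m) p x.2 := by
    intro x
    by_cases hx : x ∈ L
    · obtain ⟨p, hp, hp'⟩ := exists_uniqMax (m := m) (k := min x.1.1 x.1.2)
        (l := max x.1.1 x.1.2) min_le_max (max_le (h1 x hx) (h2 x hx)) (hE x hx)
      exact ⟨p, fun _ => ⟨hp, hp'⟩⟩
    · exact ⟨0, fun h => (hx h).elim⟩
  choose p hp using h3
  refine ⟨(L.map p).prod, ?_, ?_⟩
  · have h4 : (L.map p).prod ∈ (L.map fun x => QQ N m x.1).prod :=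
      sb11_prod L p (fun x => QQ N m x.1) fun x hx => (hp x hx).1
    have h5 : (L.map fun x => QQ N m x.1) = (L.map Prod.fst).map (QQ N m) := by
      rw [Multiset.map_map]
      rfl
    rw [h5] at h4
    exact (le_iSup (fun M : {M : Multiset (ℕ × ℕ) // IsMatch s t M} =>
      (M.1.map (QQ N m)).prod) ⟨L.map Prod.fst, hL⟩) h4
  · have h6 := UniqMax.prod (w := wv N m) (L.map fun x => (p x, x.2)) (by
      intro y hy
      obtain ⟨x, hx, rfl⟩ := Multiset.mem_map.1 hy
      exact (hp x hx).2)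
    rw [Multiset.map_map, Multiset.map_map] at h6
    exact h6

/-- The degree of a leading exponent. -/
theorem sb11_degree {k l : ℕ} {e : Fin N × Cols m →₀ ℕ} (he : Elem N m k l e) :
    e.degree = k + l := by
  obtain ⟨d, hd, a, b, -, -, rfl⟩ := he
  rw [map_add, map_sum, map_sum]
  simp only [Finsupp.degree_single]
  rw [Finset.sum_const, Finset.sum_const, Finset.card_univ, Finset.card_univ, Fintype.card_fin,
    Fintype.card_fin, smul_eq_mul, smul_eq_mul, mul_one, mul_one]
  omega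

theorem sb11_filter (M : Multiset ℕ) : (M.filter fun k => k ≠ 0).sum = M.sum := by
  induction M using Multiset.induction_on with
  | empty => rfl
  | cons k M ih =>
    by_cases h : k = 0
    · rw [Multiset.filter_cons_of_neg (p := fun k => k ≠ 0) M (not_not.2 h), ih,
        Multiset.sum_cons, h, zero_add]
    · rw [Multiset.filter_cons_of_pos (p := fun k => k ≠ 0) M h, Multiset.sum_cons,
        Multiset.sum_cons, ih]

theorem sb11_sum (L : Multiset ((ℕ × ℕ) × (Fin N × Cols m →₀ ℕ)))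
    (hE : ∀ x ∈ L, Elem N m (min x.1.1 x.1.2) (max x.1.1 x.1.2) x.2) :
    (L.map Prod.snd).sum.degree =
      ((L.map Prod.fst).map Prod.fst).sum + ((L.map Prod.fst).map Prod.snd).sum := by
  induction L using Multiset.induction_on with
  | empty =>
    rw [Multiset.map_zero, Multiset.sum_zero, map_zero, Multiset.map_zero, Multiset.map_zero,
      Multiset.map_zero, Multiset.sum_zero]
    rfl
  | cons x L ih =>
    have h1 := sb11_degree (hE x (Multiset.mem_cons_self x L))
    rw [min_add_max] at h1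
    rw [Multiset.map_cons, Multiset.sum_cons, map_add,
      ih fun y hy => hE y (Multiset.mem_cons_of_mem hy), h1, Multiset.map_cons,
      Multiset.map_cons, Multiset.map_cons, Multiset.sum_cons, Multiset.sum_cons]
    omega

theorem finite_Fam (s t : Multiset ℕ) : (Fam N m s t).Finite := by
  classical
  refine (Set.finite_Icc (0 : Fin N × Cols m →₀ ℕ)
    (Finsupp.equivFunOnFinite.symm fun _ => s.sum + t.sum)).subset ?_
  rintro e ⟨L, hL, hE, rfl⟩
  refine ⟨zero_le, fun x => ?_⟩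
  have h1 : (L.map Prod.snd).sum.degree = s.sum + t.sum := by
    rw [sb11_sum L hE, ← sb11_filter ((L.map Prod.fst).map Prod.fst),
      ← sb11_filter ((L.map Prod.fst).map Prod.snd), hL.1, hL.2]
  have h2 := Finsupp.le_degree x (L.map Prod.snd).sum
  rw [h1] at h2
  exact h2

theorem ncard_Fam_le {s t : Multiset ℕ} (hs : ∀ k ∈ s, k ≤ m + 1) (ht : ∀ k ∈ t, k ≤ m + 1) :
    (Fam N m s t).ncard ≤ Module.finrank ℚ ↥(P N m s t) := by
  rw [Set.ncard_eq_toFinset_card _ (finite_Fam s t)]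
  refine card_le_finrank (w := wv N m) (stable_P s t).fin _ fun e he => ?_
  exact exists_uniqMax_P hs ht ((finite_Fam s t).mem_toFinset.1 he)

end MP967.Sym
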