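import Pool.Agent.Lib.MP_967fd7_co.Rep.Flag
import Pool.Agent.Lib.MP_967fd7_co.Rep.Low

/-!
Symbol layer. Columns `g 0, …, g m` (`Sum.inl`) and `h 0, …, h m` (`Sum.inr`); before the
substitution `tau` they are the columns of the first factor `x` and of the second factor `y`.
-/

namespace MP967.Sym

open MvPolynomial MP967.Rep

/-- The columns. -/
abbrev Cols (m : ℕ) := Fin (m + 1) ⊕ Fin (m + 1)

/-- The column `g j`. -/
def gc (m j : ℕ) : Cols m := Sum.inl (Fin.ofNat (m + 1) j)

/-- The column `h j`. -/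
def hc (m j : ℕ) : Cols m := Sum.inr (Fin.ofNat (m + 1) j)

/-- The set of the columns `h j`. -/
def Hs (m : ℕ) : Set (Cols m) := Set.range Sum.inr

variable {N m : ℕ}

/-- The entries of the matrix `[[g_k, 0], [h_k, g_l]]`. -/
noncomputable def ent (N m : ℕ) {k l : ℕ} : Fin N ⊕ Fin N → Fin k ⊕ Fin l → Pol N (Cols m)
  | Sum.inl r, Sum.inl c => X (r, gc m c)
  | Sum.inl _, Sum.inr _ => 0
  | Sum.inr r, Sum.inl c => X (r, hc m c)
  | Sum.inr r, Sum.inr c => X (r, gc m c)

/-- The `(k+l)`-minors of the matrix `[[g_k, 0], [h_k, g_l]]`. -/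
noncomputable def gen (N m k l : ℕ) (ρ : Fin k ⊕ Fin l → Fin N ⊕ Fin N) : Pol N (Cols m) :=
  Matrix.det (Matrix.of fun i j => ent N m (ρ i) j)

/-- The span of the minors. -/
noncomputable def Q (N m k l : ℕ) : Submodule ℚ (Pol N (Cols m)) :=
  Submodule.span ℚ (Set.range (gen N m k l))

/-- The space of a pair of columns of heights `k` and `l` in any order. -/
noncomputable def QQ (N m : ℕ) (p : ℕ × ℕ) : Submodule ℚ (Pol N (Cols m)) :=
  Q N m (min p.1 p.2) (max p.1 p.2)

/-- `M` is a matching of the columns `s` with the columns `t` (height `0` = no column). -/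
def IsMatch (s t : Multiset ℕ) (M : Multiset (ℕ × ℕ)) : Prop :=
  (M.map Prod.fst).filter (fun k => k ≠ 0) = s ∧ (M.map Prod.snd).filter (fun k => k ≠ 0) = t

/-- The sum over all matchings of the products of the spaces of the pairs. -/
noncomputable def P (N m : ℕ) (s t : Multiset ℕ) : Submodule ℚ (Pol N (Cols m)) :=
  ⨆ M : {M : Multiset (ℕ × ℕ) // IsMatch s t M}, (M.1.map (QQ N m)).prod

/-- The substitution `x ↦ g`, `y ↦ g + h`. -/
noncomputable def tauH (N m : ℕ) : Pol N (Cols m) →ₐ[ℚ] Pol N (Cols m) :=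
  aeval (fun p : Fin N × Cols m => match p.2 with
    | Sum.inl c => X (p.1, Sum.inl c)
    | Sum.inr c => X (p.1, Sum.inl c) + X (p.1, Sum.inr c))

/-- The leading exponents of the minors for `k ≤ l`: the rows `a` go to the columns
`g d, …, g (k-1)`, the rows `b` to the columns `h (d-1), …, h 0, g 0, …, g (l-1)`. -/
def Elem (N m k l : ℕ) (e : Fin N × Cols m →₀ ℕ) : Prop :=
  ∃ d, d ≤ k ∧ ∃ a : Fin (k - d) → Fin N, ∃ b : Fin (l + d) → Fin N, StrictMono a ∧ StrictMono b ∧
    e = ∑ i, Finsupp.single (a i, gc m (d + i)) 1 +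
      ∑ j : Fin (l + d), Finsupp.single
        (b j, if (j : ℕ) < d then hc m (d - 1 - j) else gc m (j - d)) 1

/-- The families: sums of leading exponents over a matching. -/
def Fam (N m : ℕ) (s t : Multiset ℕ) : Set (Fin N × Cols m →₀ ℕ) :=
  {e | ∃ L : Multiset ((ℕ × ℕ) × (Fin N × Cols m →₀ ℕ)), IsMatch s t (L.map Prod.fst) ∧
    (∀ x ∈ L, Elem N m (min x.1.1 x.1.2) (max x.1.1 x.1.2) x.2) ∧ e = (L.map Prod.snd).sum}

/-- `(s', t')` is obtained from `(s, t)` by moving the `q`-th part of the difference. -/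
def Step (s t s' t' : Multiset ℕ) (q : ℕ) : Prop :=
  ∀ k, k ≠ 0 → ∃ a : ℤ, (t.count k : ℤ) - s.count k = q * a ∧
    (s'.count k : ℤ) = s.count k + a ∧ (t'.count k : ℤ) = t.count k - a

end MP967.Sym
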