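import Pool.Agent.Lib.MP_967fd7_co.Sym.Defs
import Pool.Agent.Lib.MP_967fd7_co.Cnt.CountFinal

/-! The count (layer (a)), proved in the folder `Cnt`. -/

namespace MP967.Sym

open MP967.Rep

theorem count_Fam {N m : ℕ} (hm : m < N) {s t : Multiset ℕ} (hs : ∀ k ∈ s, 1 ≤ k ∧ k ≤ m)
    (ht : ∀ k ∈ t, 1 ≤ k ∧ k ≤ m) :
    (gt N (shape s)).card * (gt N (shape t)).card ≤ (Fam N m s t).ncard :=
  MP967.Cnt.count_Fam hm hs ht

end MP967.Sym
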