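import Mathlib

/-! Integral flows: in a finite directed multigraph whose net flow at every vertex is divisible by
`q` there is a subgraph with the `q`-th part of the net flow.

Proof sketch. Induction on the number of edges. A loop `(v, v)` can be dropped. If there are edges
`(u, v)` and `(v, w)`, replace them by `(u, w)`, apply the induction hypothesis, and put both edges
into `F` if `(u, w)` is in `F`. Otherwise every vertex is only a start or only an end of edges: the
graph is bipartite with all degrees divisible by `q`; split every vertex into copies of degree `q`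
and take a perfect matching of the `q`-regular bipartite graph (Hall's theorem). -/

namespace MP967.Sym

/-- Split every vertex into copies of degree `q`. -/
theorem sb6_split {E : Type} [Fintype E] (s : E → ℕ) (q : ℕ) (b : ℕ → ℕ)
    (hs : ∀ v, (Finset.univ.filter (fun e => s e = v)).card = q * b v) :
    ∃ σ : E → ℕ × ℕ, (∀ e, (σ e).1 = s e) ∧
      ∀ e₀, (Finset.univ.filter (fun e => σ e = σ e₀)).card = q := by
  classical
  have h1 : ∀ v, Nonempty ({e // s e = v} ≃ Fin (b v) × Fin q) := by
    intro v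
    refine ⟨Fintype.equivOfCardEq ?_⟩
    rw [Fintype.card_subtype, hs, Fintype.card_prod, Fintype.card_fin, Fintype.card_fin, mul_comm]
  let φ : ∀ v, {e // s e = v} ≃ Fin (b v) × Fin q := fun v => Classical.choice (h1 v)
  have hφ : ∀ (e : E) (v : ℕ) (hv : s e = v),
      ((φ (s e) ⟨e, rfl⟩).1 : ℕ) = ((φ v ⟨e, hv⟩).1 : ℕ) := by
    rintro e v rfl
    rfl
  refine ⟨fun e => (s e, ((φ (s e) ⟨e, rfl⟩).1 : ℕ)), fun _ => rfl, fun e₀ => ?_⟩
  have h2 : (Finset.univ.filter fun e => (s e, ((φ (s e) ⟨e, rfl⟩).1 : ℕ)) =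
      (s e₀, ((φ (s e₀) ⟨e₀, rfl⟩).1 : ℕ))) = (Finset.univ : Finset (Fin q)).image
        (fun j => ((φ (s e₀)).symm ((φ (s e₀) ⟨e₀, rfl⟩).1, j)).1) := by
    ext e
    simp only [Finset.mem_filter, Finset.mem_image, Finset.mem_univ, true_and, Prod.mk.injEq]
    constructor
    · rintro ⟨h3, h4⟩
      rw [hφ e _ h3] at h4
      refine ⟨(φ (s e₀) ⟨e, h3⟩).2, ?_⟩
      have h5 : ((φ (s e₀) ⟨e₀, rfl⟩).1, (φ (s e₀) ⟨e, h3⟩).2) = φ (s e₀) ⟨e, h3⟩ :=
        Prod.ext (Fin.ext h4.symm) rfl
      rw [h5, Equiv.symm_apply_apply]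
    · rintro ⟨j, rfl⟩
      have h3 : s ((φ (s e₀)).symm ((φ (s e₀) ⟨e₀, rfl⟩).1, j)).1 = s e₀ :=
        ((φ (s e₀)).symm ((φ (s e₀) ⟨e₀, rfl⟩).1, j)).2
      refine ⟨h3, ?_⟩
      rw [hφ _ _ h3]
      have h6 : φ (s e₀) ⟨((φ (s e₀)).symm ((φ (s e₀) ⟨e₀, rfl⟩).1, j)).1, h3⟩ =
          ((φ (s e₀) ⟨e₀, rfl⟩).1, j) := by
        rw [Subtype.coe_eta, Equiv.apply_symm_apply]
      rw [h6]
  rw [h2, Finset.card_image_of_injective, Finset.card_univ, Fintype.card_fin]
  intro j j' hj
  have h7 := (φ (s e₀)).symm.injective (Subtype.ext hj)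
  exact (Prod.mk.injEq _ _ _ _ ▸ h7 : _ ∧ _).2

/-- Fibres of size `q`. -/
theorem sb6_count {E : Type} [Fintype E] (σ : E → ℕ × ℕ) (q : ℕ)
    (hσ : ∀ e₀, (Finset.univ.filter (fun e => σ e = σ e₀)).card = q) (A : Finset (ℕ × ℕ))
    (hA : A ⊆ Finset.univ.image σ) :
    (Finset.univ.filter (fun e => σ e ∈ A)).card = A.card * q := by
  classical
  have hmap : ((Finset.univ.filter (fun e => σ e ∈ A) : Finset E) : Set E).MapsTo σ A :=
    fun e he => (Finset.mem_filter.1 (Finset.mem_coe.1 he)).2
  rw [Finset.card_eq_sum_card_fiberwise hmap]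
  rw [Finset.sum_congr rfl (g := fun _ => q), Finset.sum_const, smul_eq_mul]
  intro a ha
  obtain ⟨e₀, -, rfl⟩ := Finset.mem_image.1 (hA ha)
  rw [← hσ e₀]
  refine congrArg Finset.card ?_
  ext e
  simp only [Finset.mem_filter, Finset.mem_univ, true_and]
  constructor
  · exact fun h => h.2
  · intro h
    exact ⟨by rw [h]; exact ha, h⟩

theorem sb6_key {E : Type} [Fintype E] [DecidableEq E] (s t : E → ℕ) (q : ℕ) (hq : 0 < q)
    (b c : ℕ → ℕ) (hs : ∀ v, (Finset.univ.filter (fun e => s e = v)).card = q * b v)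
    (ht : ∀ v, (Finset.univ.filter (fun e => t e = v)).card = q * c v) :
    ∃ F : Finset E, (∀ v, (F.filter (fun e => s e = v)).card = b v) ∧
      ∀ v, (F.filter (fun e => t e = v)).card = c v := by
  classical
  obtain ⟨σ, hσ1, hσ2⟩ := sb6_split s q b hs
  obtain ⟨τ, hτ1, hτ2⟩ := sb6_split t q c ht
  -- the number of copies of a vertex
  have hcop : ∀ (s : E → ℕ) (b : ℕ → ℕ) (σ : E → ℕ × ℕ), (∀ e, (σ e).1 = s e) →
      (∀ e₀, (Finset.univ.filter (fun e => σ e = σ e₀)).card = q) →
      (∀ v, (Finset.univ.filter (fun e => s e = v)).card = q * b v) → ∀ v,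
      ((Finset.univ.image σ).filter (fun l => l.1 = v)).card = b v := by
    intro s b σ h1 h2 h3 v
    have h4 := sb6_count σ q h2 ((Finset.univ.image σ).filter (fun l => l.1 = v))
      (Finset.filter_subset _ _)
    have h5 : (Finset.univ.filter (fun e => σ e ∈ (Finset.univ.image σ).filter
        (fun l => l.1 = v))) = Finset.univ.filter (fun e => s e = v) := by
      ext e
      simp only [Finset.mem_filter, Finset.mem_univ, true_and, h1]
      constructor
      · exact fun h => h.2
      · exact fun h => ⟨Finset.mem_image_of_mem _ (Finset.mem_univ _), h⟩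
    rw [h5, h3, mul_comm] at h4
    exact (Nat.eq_of_mul_eq_mul_right hq h4).symm
  obtain ⟨L, hL⟩ : ∃ L, L = Finset.univ.image σ := ⟨_, rfl⟩
  obtain ⟨R, hR⟩ : ∃ R, R = Finset.univ.image τ := ⟨_, rfl⟩
  have hcard : L.card = R.card := by
    have h1 := sb6_count σ q hσ2 L (by rw [hL])
    have h2 := sb6_count τ q hτ2 R (by rw [hR])
    have h3 : (Finset.univ.filter (fun e => σ e ∈ L)) = Finset.univ.filter (fun e => τ e ∈ R) := by
      ext e
      simp only [Finset.mem_filter, Finset.mem_univ, true_and, hL, hR]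
      constructor
      · exact fun _ => Finset.mem_image_of_mem _ (Finset.mem_univ _)
      · exact fun _ => Finset.mem_image_of_mem _ (Finset.mem_univ _)
    rw [h3, h2] at h1
    exact (Nat.eq_of_mul_eq_mul_right hq h1).symm
  have hall : ∃ f : ↥L → ℕ × ℕ, Function.Injective f ∧
      ∀ l, f l ∈ (Finset.univ.filter (fun e => σ e = l.1)).image τ := by
    rw [← Finset.all_card_le_biUnion_card_iff_exists_injective]
    intro A
    have h1 := sb6_count σ q hσ2 (A.image Subtype.val) (by
      intro a ha
      obtain ⟨l, -, rfl⟩ := Finset.mem_image.1 ha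
      rw [← hL]
      exact l.2)
    have h2 := sb6_count τ q hτ2
      (A.biUnion fun l => (Finset.univ.filter (fun e => σ e = l.1)).image τ) (by
        intro a ha
        obtain ⟨l, -, hl⟩ := Finset.mem_biUnion.1 ha
        obtain ⟨e, -, rfl⟩ := Finset.mem_image.1 hl
        exact Finset.mem_image_of_mem _ (Finset.mem_univ _))
    have h3 : (Finset.univ.filter (fun e => σ e ∈ A.image Subtype.val)) ⊆
        (Finset.univ.filter (fun e => τ e ∈ A.biUnion fun l =>
          (Finset.univ.filter (fun e => σ e = l.1)).image τ)) := by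
      intro e he
      obtain ⟨l, hl, hle⟩ := Finset.mem_image.1 (Finset.mem_filter.1 he).2
      refine Finset.mem_filter.2 ⟨Finset.mem_univ _, Finset.mem_biUnion.2 ⟨l, hl, ?_⟩⟩
      exact Finset.mem_image_of_mem _ (Finset.mem_filter.2 ⟨Finset.mem_univ _, hle.symm⟩)
    have h4 := Finset.card_le_card h3
    rw [h1, h2, Finset.card_image_of_injective _ Subtype.val_injective] at h4
    exact Nat.le_of_mul_le_mul_right h4 hq
  obtain ⟨f, hf1, hf2⟩ := hall
  have hex : ∀ l : ↥L, ∃ e, σ e = l.1 ∧ τ e = f l := by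
    intro l
    obtain ⟨e, he, hfe⟩ := Finset.mem_image.1 (hf2 l)
    exact ⟨e, (Finset.mem_filter.1 he).2, hfe⟩
  choose e he1 he2 using hex
  have hinj : Function.Injective e := by
    intro l l' h
    apply Subtype.ext
    rw [← he1, ← he1, h]
  have hfR : Finset.univ.image f = R := by
    refine Finset.eq_of_subset_of_card_le ?_ ?_
    · intro a ha
      obtain ⟨l, -, rfl⟩ := Finset.mem_image.1 ha
      rw [← he2, hR]
      exact Finset.mem_image_of_mem _ (Finset.mem_univ _)
    · rw [Finset.card_image_of_injective _ hf1, Finset.card_univ, Fintype.card_coe, hcard]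
  refine ⟨Finset.univ.image e, fun v => ?_, fun v => ?_⟩
  · rw [Finset.filter_image, Finset.card_image_of_injective _ hinj,
      ← hcop s b σ hσ1 hσ2 hs v, ← hL]
    have h1 : (L.filter (fun l => l.1 = v)) =
        (Finset.univ.filter (fun l : ↥L => s (e l) = v)).image Subtype.val := by
      ext l
      simp only [Finset.mem_filter, Finset.mem_image, Finset.mem_univ, true_and]
      constructor
      · rintro ⟨h2, h3⟩
        exact ⟨⟨l, h2⟩, by rw [← hσ1, he1]; exact h3, rfl⟩
      · rintro ⟨l', h2, rfl⟩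
        rw [← hσ1, he1] at h2
        exact ⟨l'.2, h2⟩
    rw [h1, Finset.card_image_of_injective _ Subtype.val_injective]
  · rw [Finset.filter_image, Finset.card_image_of_injective _ hinj,
      ← hcop t c τ hτ1 hτ2 ht v, ← hR, ← hfR, Finset.filter_image,
      Finset.card_image_of_injective _ hf1]
    refine congrArg Finset.card ?_
    ext l
    simp only [Finset.mem_filter, Finset.mem_univ, true_and, ← hτ1, he2]

/-- The bipartite case. -/
theorem flow_bipartite (M : Multiset (ℕ × ℕ)) (q : ℕ) (hq : 0 < q)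
    (h0 : ∀ v, v ∈ M.map Prod.fst → v ∉ M.map Prod.snd) (b c : ℕ → ℕ)
    (h1 : ∀ v, (M.map Prod.fst).count v = q * b v) (h2 : ∀ v, (M.map Prod.snd).count v = q * c v) :
    ∃ F ≤ M, (∀ v, (F.map Prod.fst).count v = b v) ∧ (∀ v, (F.map Prod.snd).count v = c v) := by
  classical
  have _h0 := h0
  have hcnt : ∀ (F : Finset M) (g : ℕ × ℕ → ℕ) (v : ℕ),
      (Multiset.map g (F.val.map (fun x : M => (x.1 : ℕ × ℕ)))).count v =
        (F.filter (fun e => g e.1 = v)).card := by
    intro F g v
    rw [Multiset.map_map, Multiset.count_map, Finset.card_def, Finset.filter_val]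
    refine congrArg Multiset.card (Multiset.filter_congr fun x _ => ?_)
    exact eq_comm
  have hM : (Finset.univ : Finset M).val.map (fun x : M => (x.1 : ℕ × ℕ)) = M := M.map_univ_coe
  obtain ⟨F, hF1, hF2⟩ := sb6_key (fun e : M => e.1.1) (fun e : M => e.1.2) q hq b c
    (fun v => by rw [← hcnt Finset.univ Prod.fst v, hM, h1])
    (fun v => by rw [← hcnt Finset.univ Prod.snd v, hM, h2])
  refine ⟨F.val.map (fun x : M => (x.1 : ℕ × ℕ)), ?_, fun v => ?_, fun v => ?_⟩
  · exact (Multiset.map_le_map (Finset.val_le_iff.2 (Finset.subset_univ F))).trans_eq hM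
  · rw [hcnt, hF1]
  · rw [hcnt, hF2]

theorem flow (M : Multiset (ℕ × ℕ)) (q : ℕ) (hq : 0 < q) (a : ℕ → ℤ)
    (h : ∀ v, ((M.map Prod.snd).count v : ℤ) - (M.map Prod.fst).count v = q * a v) :
    ∃ F ≤ M, ∀ v, ((F.map Prod.snd).count v : ℤ) - (F.map Prod.fst).count v = a v := by
  induction hn : Multiset.card M using Nat.strong_induction_on generalizing M with
  | _ n ih =>
    by_cases hloop : ∃ v, (v, v) ∈ M
    · obtain ⟨v, hv⟩ := hloop
      obtain ⟨M', rfl⟩ := Multiset.exists_cons_of_mem hv
      have hM' : ∀ w, ((M'.map Prod.snd).count w : ℤ) - (M'.map Prod.fst).count w = q * a w := by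
        intro w
        have := h w
        simp only [Multiset.map_cons, Multiset.count_cons] at this
        push_cast at this
        linarith
      obtain ⟨F, hF, hFa⟩ := ih (Multiset.card M') (by rw [← hn]; simp) M' hM' rfl
      exact ⟨F, hF.trans (Multiset.le_cons_self _ _), hFa⟩
    · by_cases hpath : ∃ u v w, (u, v) ∈ M ∧ (v, w) ∈ M
      · obtain ⟨u, v, w, huv, hvw⟩ := hpath
        have hne : (v, w) ≠ (u, v) := by
          intro he
          simp only [Prod.mk.injEq] at he
          obtain ⟨h1, h2⟩ := he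
          subst h1
          exact hloop ⟨v, huv⟩
        obtain ⟨M1, rfl⟩ := Multiset.exists_cons_of_mem huv
        have hvw' : (v, w) ∈ M1 := (Multiset.mem_cons.1 hvw).resolve_left hne
        obtain ⟨M2, rfl⟩ := Multiset.exists_cons_of_mem hvw'
        have hM2 : ∀ x, ((((u, w) ::ₘ M2).map Prod.snd).count x : ℤ)
            - (((u, w) ::ₘ M2).map Prod.fst).count x = q * a x := by
          intro x
          have := h x
          simp only [Multiset.map_cons, Multiset.count_cons] at this ⊢
          push_cast at this ⊢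
          linarith
        obtain ⟨F, hF, hFa⟩ := ih (Multiset.card ((u, w) ::ₘ M2)) (by rw [← hn]; simp) _ hM2 rfl
        by_cases huw : (u, w) ∈ F
        · obtain ⟨F', rfl⟩ := Multiset.exists_cons_of_mem huw
          have hF' : F' ≤ M2 := (Multiset.cons_le_cons_iff _).1 hF
          refine ⟨(u, v) ::ₘ (v, w) ::ₘ F',
            Multiset.cons_le_cons _ (Multiset.cons_le_cons _ hF'), ?_⟩
          intro x
          have := hFa x
          simp only [Multiset.map_cons, Multiset.count_cons] at this ⊢
          push_cast at this ⊢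
          linarith
        · have hF' : F ≤ M2 := (Multiset.le_cons_of_notMem huw).1 hF
          exact ⟨F, hF'.trans ((Multiset.le_cons_self _ _).trans (Multiset.le_cons_self _ _)), hFa⟩
      · have h0 : ∀ v, v ∈ M.map Prod.fst → v ∉ M.map Prod.snd := by
          intro v h1 h2
          obtain ⟨⟨v1, w⟩, hw, rfl⟩ := Multiset.mem_map.1 h1
          obtain ⟨⟨u, v2⟩, hu, hv2⟩ := Multiset.mem_map.1 h2
          simp only at hv2
          subst hv2
          exact hpath ⟨u, v2, w, hu, hw⟩
        have hdiv : ∀ v, q ∣ (M.map Prod.fst).count v ∧ q ∣ (M.map Prod.snd).count v := by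
          intro v
          by_cases hv : v ∈ M.map Prod.fst
          · have h2 : (M.map Prod.snd).count v = 0 := Multiset.count_eq_zero.2 (h0 v hv)
            have h3 := h v
            rw [h2] at h3
            refine ⟨?_, by rw [h2]; exact dvd_zero _⟩
            have : ((q : ℤ)) ∣ ((M.map Prod.fst).count v : ℤ) := ⟨- a v, by push_cast at h3; linarith⟩
            exact_mod_cast this
          · have h2 : (M.map Prod.fst).count v = 0 := Multiset.count_eq_zero.2 hv
            have h3 := h v
            rw [h2] at h3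
            refine ⟨by rw [h2]; exact dvd_zero _, ?_⟩
            have : ((q : ℤ)) ∣ ((M.map Prod.snd).count v : ℤ) := ⟨a v, by push_cast at h3; linarith⟩
            exact_mod_cast this
        choose b hb using fun v => (hdiv v).1
        choose c hc using fun v => (hdiv v).2
        obtain ⟨F, hF, hFb, hFc⟩ := flow_bipartite M q hq h0 b c hb hc
        refine ⟨F, hF, fun v => ?_⟩
        rw [hFb, hFc]
        have h3 := h v
        rw [hb, hc] at h3
        push_cast at h3
        have hq' : (q : ℤ) ≠ 0 := by exact_mod_cast hq.ne'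
        apply mul_left_cancel₀ hq'
        linarith

end MP967.Sym
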