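import Pool.Agent.Lib.MP_967fd7_co.Sym.QStable
import Pool.Agent.Lib.MP_967fd7_co.Sym.Flow

/-! Monotonicity of `P` by flows. -/

namespace MP967.Sym

open MvPolynomial MP967.Rep

variable {N m : ℕ}

/-- The multiplicity of a nonzero height in a part of a matching. -/
theorem sb8_count {A : Multiset ℕ} {s : Multiset ℕ} (h : A.filter (fun k => k ≠ 0) = s) {v : ℕ}
    (hv : v ≠ 0) : s.count v = A.count v := by
  rw [← h]
  exact Multiset.count_filter_of_pos hv

/-- The total net flow is zero. -/
theorem sb8_total (M : Multiset (ℕ × ℕ)) (U : Finset ℕ)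
    (h1 : ∀ v ∈ M.map Prod.fst, v ∈ U) (h2 : ∀ v ∈ M.map Prod.snd, v ∈ U) :
    ∑ v ∈ U, (((M.map Prod.snd).count v : ℤ) - (M.map Prod.fst).count v) = 0 := by
  have e1 := Multiset.sum_count_eq_card h1
  have e2 := Multiset.sum_count_eq_card h2
  rw [Multiset.card_map] at e1 e2
  rw [Finset.sum_sub_distrib, ← Nat.cast_sum, ← Nat.cast_sum, e1, e2, sub_self]

/-- The net flow at `0` is divisible by `q` as well. -/
theorem sb8_div {s t s' t' : Multiset ℕ} {q : ℕ} (h : Step s t s' t' q) {M : Multiset (ℕ × ℕ)}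
    (hM : IsMatch s t M) : ∃ a : ℕ → ℤ,
      (∀ v, ((M.map Prod.snd).count v : ℤ) - (M.map Prod.fst).count v = q * a v) ∧
      ∀ v, v ≠ 0 → (s'.count v : ℤ) = s.count v + a v ∧ (t'.count v : ℤ) = t.count v - a v := by
  classical
  choose! a ha using h
  have hd : ∀ v, v ≠ 0 →
      ((M.map Prod.snd).count v : ℤ) - (M.map Prod.fst).count v = q * a v := by
    intro v hv
    rw [← sb8_count hM.1 hv, ← sb8_count hM.2 hv]
    exact (ha v hv).1
  obtain ⟨U, hU⟩ : ∃ U : Finset ℕ,
      U = insert 0 ((M.map Prod.fst).toFinset ∪ (M.map Prod.snd).toFinset) := ⟨_, rfl⟩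
  have h0 := sb8_total M U
    (fun v hv => by
      rw [hU]
      exact Finset.mem_insert_of_mem (Finset.mem_union_left _ (Multiset.mem_toFinset.2 hv)))
    (fun v hv => by
      rw [hU]
      exact Finset.mem_insert_of_mem (Finset.mem_union_right _ (Multiset.mem_toFinset.2 hv)))
  have h0U : 0 ∈ U := by
    rw [hU]
    exact Finset.mem_insert_self _ _
  rw [← Finset.add_sum_erase U _ h0U] at h0
  have h1 : ∑ v ∈ U.erase 0, (((M.map Prod.snd).count v : ℤ) - (M.map Prod.fst).count v) =
      q * ∑ v ∈ U.erase 0, a v := by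
    rw [Finset.mul_sum]
    exact Finset.sum_congr rfl fun v hv => hd v (Finset.ne_of_mem_erase hv)
  rw [h1] at h0
  refine ⟨fun v => if v = 0 then -∑ v ∈ U.erase 0, a v else a v, fun v => ?_, fun v hv => ?_⟩
  · by_cases hv : v = 0
    · subst hv
      beta_reduce
      rw [if_pos rfl]
      linear_combination h0
    · beta_reduce
      rw [if_neg hv]
      exact hd v hv
  · beta_reduce
    rw [if_neg hv]
    exact (ha v hv).2

theorem match_mono {s t s' t' : Multiset ℕ} {q : ℕ} (hq : 0 < q) (h : Step s t s' t' q)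
    (hs' : 0 ∉ s') (ht' : 0 ∉ t') {M : Multiset (ℕ × ℕ)} (hM : IsMatch s t M) :
    ∃ F ≤ M, IsMatch s' t' (M - F + F.map Prod.swap) := by
  classical
  obtain ⟨a, ha, hb⟩ := sb8_div h hM
  obtain ⟨F, hF, hf⟩ := flow M q hq a ha
  have e1 : (M - F).map Prod.fst + F.map Prod.fst = M.map Prod.fst := by
    rw [← Multiset.map_add, tsub_add_cancel_of_le hF]
  have e2 : (M - F).map Prod.snd + F.map Prod.snd = M.map Prod.snd := by
    rw [← Multiset.map_add, tsub_add_cancel_of_le hF]
  refine ⟨F, hF, ?_, ?_⟩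
  · ext v
    by_cases hv : v = 0
    · subst hv
      rw [Multiset.count_filter_of_neg (p := fun k => k ≠ 0) (fun h => h rfl), Multiset.count_eq_zero_of_notMem hs']
    · rw [Multiset.count_filter_of_pos (p := fun k => k ≠ 0) hv, Multiset.map_add, Multiset.map_map,
        Multiset.count_add]
      have h1 : F.map (Prod.fst ∘ Prod.swap) = F.map Prod.snd := rfl
      have h2 := congrArg (Multiset.count v) e1
      have h3 := hf v
      have h4 := (hb v hv).1
      have h5 := sb8_count hM.1 hv
      rw [h1]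
      rw [Multiset.count_add] at h2
      omega
  · ext v
    by_cases hv : v = 0
    · subst hv
      rw [Multiset.count_filter_of_neg (p := fun k => k ≠ 0) (fun h => h rfl), Multiset.count_eq_zero_of_notMem ht']
    · rw [Multiset.count_filter_of_pos (p := fun k => k ≠ 0) hv, Multiset.map_add, Multiset.map_map,
        Multiset.count_add]
      have h1 : F.map (Prod.snd ∘ Prod.swap) = F.map Prod.fst := rfl
      have h2 := congrArg (Multiset.count v) e2
      have h3 := hf v
      have h4 := (hb v hv).2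
      have h5 := sb8_count hM.2 hv
      rw [h1]
      rw [Multiset.count_add] at h2
      omega

theorem P_mono {s t s' t' : Multiset ℕ} {q : ℕ} (hq : 0 < q) (h : Step s t s' t' q)
    (hs' : 0 ∉ s') (ht' : 0 ∉ t') : P N m s t ≤ P N m s' t' := by
  classical
  refine iSup_le fun M => ?_
  obtain ⟨F, hF, hM'⟩ := match_mono hq h hs' ht' M.2
  have h1 : (M.1.map (QQ N m)).prod = ((M.1 - F + F.map Prod.swap).map (QQ N m)).prod := by
    have h2 : (F.map Prod.swap).map (QQ N m) = F.map (QQ N m) := by
      rw [Multiset.map_map]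
      exact Multiset.map_congr rfl fun p _ => QQ_swap p
    rw [Multiset.map_add, h2, ← Multiset.map_add, tsub_add_cancel_of_le hF]
  rw [h1]
  exact le_iSup (fun M : {M : Multiset (ℕ × ℕ) // IsMatch s' t' M} =>
    (M.1.map (QQ N m)).prod) ⟨_, hM'⟩

end MP967.Sym
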