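import Pool.Agent.Lib.MP_967fd7_co.Sym.LeadTerm
import Pool.Agent.Lib.MP_967fd7_co.Sym.Mono
import Pool.Agent.Lib.MP_967fd7_co.Sym.Count
import Pool.Agent.Lib.MP_967fd7_co.Final

/-! The final deduction. -/

namespace MP967.Sym

open MvPolynomial MP967.Rep

variable {N m : ℕ}

theorem sb12_sum {C : Type} {W : Submodule ℚ (Pol N C)} (hW : W.FG)
    (hh : ∀ p ∈ W, ∀ β, comp β p ∈ W) (B : Finset (Fin N →₀ ℕ))
    (hB : ∀ β, mult W β ≠ 0 → β ∈ B) :
    Module.finrank ℚ ↥W = ∑ β ∈ B, mult W β := by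
  classical
  have hfW : Module.Finite ℚ W := Module.Finite.iff_fg.2 hW
  have hf : ∀ β : Fin N →₀ ℕ, Module.Finite ℚ ↥(W ⊓ wtSpace C β) := fun β =>
    Submodule.finiteDimensional_of_le (inf_le_left : W ⊓ wtSpace C β ≤ W)
  let F : W →ₗ[ℚ] ((β : B) → ↥(W ⊓ wtSpace C (β : Fin N →₀ ℕ))) :=
    LinearMap.pi fun β => LinearMap.codRestrict _ ((comp (β : Fin N →₀ ℕ)).comp W.subtype)
      (fun p => Submodule.mem_inf.2 ⟨hh p.1 p.2 _, comp_mem _ _⟩)
  have hF : ∀ (p : W) (β : B), ((F p β : ↥(W ⊓ wtSpace C (β : Fin N →₀ ℕ))) : Pol N C) =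
      comp (β : Fin N →₀ ℕ) p.1 := fun _ _ => rfl
  have hinj : Function.Injective F := by
    rw [injective_iff_map_eq_zero]
    intro p hp
    have h1 : ∀ β, comp β p.1 = 0 := by
      intro β
      by_cases hβ : β ∈ B
      · have h2 := hF p ⟨β, hβ⟩
        rw [hp] at h2
        exact h2.symm
      · have h2 : mult W β = 0 := by
          by_contra h3
          exact hβ (hB β h3)
        exact (mult_eq_zero_iff hW).1 h2 _ (hh _ p.2 β) (comp_mem β _)
    have h2 : (p : Pol N C) ∈ (⊥ : Submodule ℚ (Pol N C)) :=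
      mem_of_comp fun β => by rw [h1 β]; exact Submodule.zero_mem _
    exact Subtype.ext ((Submodule.mem_bot ℚ).1 h2)
  have hsurj : Function.Surjective F := by
    intro q
    refine ⟨∑ β : B, ⟨(q β).1, (Submodule.mem_inf.1 (q β).2).1⟩, ?_⟩
    funext γ
    apply Subtype.ext
    rw [hF, Submodule.coe_sum, map_sum]
    rw [Finset.sum_eq_single γ]
    · exact comp_of_mem (Submodule.mem_inf.1 (q γ).2).2
    · intro β _ hβ
      exact comp_of_mem_ne (Submodule.mem_inf.1 (q β).2).2 (fun h => hβ (Subtype.ext h))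
    · intro h
      exact absurd (Finset.mem_univ _) h
  rw [(LinearEquiv.ofBijective F ⟨hinj, hsurj⟩).finrank_eq, Module.finrank_pi_fintype,
    ← Finset.sum_coe_sort B (fun β => mult W β)]
  rfl

theorem finrank_eq_of_ch {C : Type} {W : Submodule ℚ (Pol N C)} (hW : W.FG)
    (hh : ∀ p ∈ W, ∀ β, comp β p ∈ W) :
    (Module.finrank ℚ ↥W : ℤ) = MvPolynomial.eval (fun _ => 1) (ch W) := by
  classical
  have hfin := finite_mult hW
  have h1 : (Function.support fun γ : Fin N →₀ ℕ => monomial γ (mult W γ : ℤ)) ⊆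
      (hfin.toFinset : Finset (Fin N →₀ ℕ)) := by
    intro γ hγ
    rw [Set.Finite.coe_toFinset]
    intro h2
    apply hγ
    show monomial γ (mult W γ : ℤ) = 0
    rw [h2, Nat.cast_zero, monomial_zero]
  unfold ch
  rw [finsum_eq_sum_of_support_subset _ h1, map_sum,
    sb12_sum hW hh hfin.toFinset (fun β hβ => (Set.Finite.mem_toFinset hfin).2 hβ), Nat.cast_sum]
  apply Finset.sum_congr rfl
  intro β _
  rw [eval_monomial]
  simp

theorem eval_S (A : ℕ → ℕ) : MvPolynomial.eval (fun _ => (1 : ℤ)) (S N A) = (gt N A).card := by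
  unfold S
  rw [map_sum, Finset.card_eq_sum_ones, Nat.cast_sum]
  apply Finset.sum_congr rfl
  intro c _
  unfold mon
  simp [eval_monomial]

theorem sb12_injg : Set.InjOn (gc m) (Set.Iio m) := by
  intro i hi j hj h
  have h1 := congrArg Fin.val (Sum.inl.inj h)
  have hi' : i < m := hi
  have hj' : j < m := hj
  simp only [Fin.ofNat] at h1
  rwa [Nat.mod_eq_of_lt (by omega), Nat.mod_eq_of_lt (by omega)] at h1

theorem sb12_injh : Set.InjOn (hc m) (Set.Iio m) := by
  intro i hi j hj h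
  have h1 := congrArg Fin.val (Sum.inr.inj h)
  have hi' : i < m := hi
  have hj' : j < m := hj
  simp only [Fin.ofNat] at h1
  rwa [Nat.mod_eq_of_lt (by omega), Nat.mod_eq_of_lt (by omega)] at h1

theorem ch_VV {s t : Multiset ℕ} (hm : m < N) (hs : ∀ k ∈ s, k ≤ m) (ht : ∀ k ∈ t, k ≤ m) :
    ch (V N (gc m) s * V N (hc m) t) = S N (shape s) * S N (shape t) := by
  have hg := stable_V (N := N) (gc m) s
  have hh := stable_V (N := N) (hc m) t
  rw [ch_mul hg.fin hh.fin hg.hom hh.hom (Set.range Sum.inl) (Set.range Sum.inr)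
    Set.isCompl_range_inl_range_inr.disjoint ?_ ?_, ch_V (gc m) m hm.le sb12_injg s hs,
    ch_V (hc m) m hm.le sb12_injh t ht]
  · intro p hp
    refine supported_mono ?_ (V_supported (gc m) m s hs hp)
    rintro q ⟨j, _, hj⟩
    exact ⟨_, hj⟩
  · intro p hp
    refine supported_mono ?_ (V_supported (hc m) m t ht hp)
    rintro q ⟨j, _, hj⟩
    exact ⟨_, hj⟩

theorem sb12_tau_mem {β : Fin N →₀ ℕ} {p : Pol N (Cols m)} (hp : p ∈ wtSpace (Cols m) β) :
    tauH N m p ∈ wtSpace (Cols m) β := by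
  classical
  rw [p.as_sum, map_sum]
  refine Submodule.sum_mem _ fun e he => ?_
  have h1 : Finsupp.weight rowWt e = β := mem_wtSpace.1 hp e (mem_support_iff.1 he)
  have h2 : tauH N m (monomial e (coeff e p)) = C (coeff e p) *
      e.prod fun q k => (tauH N m (X q)) ^ k := by
    rw [monomial_eq, map_mul, MvPolynomial.algHom_C, Finsupp.prod, map_prod, Finsupp.prod]
    simp only [map_pow, algebraMap_eq]
  rw [h2, C_mul']
  refine Submodule.smul_mem _ _ ?_
  have h3 : ∀ q : Fin N × Cols m, IsWeightedHomogeneous rowWt (tauH N m (X q)) (rowWt q) := by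
    intro q
    obtain ⟨r, c | c⟩ := q
    · have h4 : tauH N m (X (r, Sum.inl c)) = X (r, Sum.inl c) := by
        unfold tauH
        rw [aeval_X]
      rw [h4]
      exact isWeightedHomogeneous_X ℚ rowWt (r, Sum.inl c)
    · have h4 : tauH N m (X (r, Sum.inr c)) = X (r, Sum.inl c) + X (r, Sum.inr c) := by
        unfold tauH
        rw [aeval_X]
      rw [h4]
      exact IsWeightedHomogeneous.add (isWeightedHomogeneous_X ℚ rowWt (r, Sum.inl c))
        (isWeightedHomogeneous_X ℚ rowWt (r, Sum.inr c))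
  have h4 : IsWeightedHomogeneous rowWt (∏ q ∈ e.support, (tauH N m (X q)) ^ e q)
      (∑ q ∈ e.support, e q • rowWt q) :=
    IsWeightedHomogeneous.prod e.support _ _ fun q _ => (h3 q).pow _
  have h5 : ∑ q ∈ e.support, e q • (rowWt q : Fin N →₀ ℕ) = β := by
    rw [← h1, Finsupp.weight_apply, Finsupp.sum]
  rw [h5] at h4
  exact h4

theorem sb12_comm (β : Fin N →₀ ℕ) (p : Pol N (Cols m)) :
    comp β (tauH N m p) = tauH N m (comp β p) := by
  induction p using MvPolynomial.induction_on' with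
  | monomial e a =>
    have hm : (monomial e a : Pol N (Cols m)) ∈ wtSpace (Cols m) (Finsupp.weight rowWt e) :=
      isWeightedHomogeneous_monomial rowWt e a rfl
    by_cases hβ : Finsupp.weight rowWt e = β
    · rw [hβ] at hm
      rw [comp_of_mem hm, comp_of_mem (sb12_tau_mem hm)]
    · rw [comp_of_mem_ne hm hβ, comp_of_mem_ne (sb12_tau_mem hm) hβ, map_zero]
  | add p q hp hq => rw [map_add, map_add, map_add, map_add, hp, hq]

theorem ch_P {s t : Multiset ℕ} (hm : m < N) (hs : ∀ k ∈ s, 1 ≤ k ∧ k ≤ m)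
    (ht : ∀ k ∈ t, 1 ≤ k ∧ k ≤ m) : ch (P N m s t) = S N (shape s) * S N (shape t) := by
  have hs' : ∀ k ∈ s, k ≤ m := fun k hk => (hs k hk).2
  have ht' : ∀ k ∈ t, k ≤ m := fun k hk => (ht k hk).2
  have hV : Stable (V N (gc m) s * V N (hc m) t) := (stable_V (gc m) s).mul (stable_V (hc m) t)
  have hd : Module.finrank ℚ ↥((V N (gc m) s * V N (hc m) t).map (tauH N m).toLinearMap) ≤
      Module.finrank ℚ ↥(P N m s t) := by
    rw [finrank_tauH]
    have h1 := finrank_eq_of_ch hV.fin hV.hom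
    rw [ch_VV hm hs' ht', map_mul, eval_S, eval_S, ← Nat.cast_mul, Nat.cast_inj] at h1
    rw [h1]
    refine (count_Fam hm hs ht).trans (ncard_Fam_le ?_ ?_)
    · exact fun k hk => (hs' k hk).trans (Nat.le_succ m)
    · exact fun k hk => (ht' k hk).trans (Nat.le_succ m)
  have hW : ((V N (gc m) s * V N (hc m) t).map (tauH N m).toLinearMap).FG := hV.fin.map _
  have hh : ∀ p ∈ (V N (gc m) s * V N (hc m) t).map (tauH N m).toLinearMap, ∀ β,
      comp β p ∈ (V N (gc m) s * V N (hc m) t).map (tauH N m).toLinearMap := by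
    rintro _ ⟨p, hp, rfl⟩ β
    refine ⟨comp β p, hV.hom p hp β, ?_⟩
    exact (sb12_comm β p).symm
  rw [ch_eq_of_finrank hW (Hs m) hh (P_le_low s t) hd, ch_tauH, ch_VV hm hs' ht']

theorem poly_mono {s t s' t' : Multiset ℕ} (hm : m < N) (hs : ∀ k ∈ s, 1 ≤ k ∧ k ≤ m)
    (ht : ∀ k ∈ t, 1 ≤ k ∧ k ≤ m) (hs' : ∀ k ∈ s', 1 ≤ k ∧ k ≤ m)
    (ht' : ∀ k ∈ t', 1 ≤ k ∧ k ≤ m) {q : ℕ} (hq : 0 < q) (h : Step s t s' t' q) :
    ∃ u : Multiset (ℕ → ℕ), (∀ D ∈ u, IsPart N D) ∧
      S N (shape s') * S N (shape t') = S N (shape s) * S N (shape t) + (u.map (S N)).sum := by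
  have h0 : 0 ∉ s' := fun h => absurd (hs' 0 h).1 (by omega)
  have h0' : 0 ∉ t' := fun h => absurd (ht' 0 h).1 (by omega)
  obtain ⟨u, hu, h1⟩ := ch_sub (stable_P s t) (stable_P s' t')
    (P_mono (N := N) (m := m) hq h h0 h0')
  rw [ch_P hm hs ht, ch_P hm hs' ht'] at h1
  exact ⟨u, hu, h1⟩

private theorem sb13_rep (P : ℕ → Prop) [DecidablePred P] (c a : ℕ) :
    (Multiset.replicate c a).countP P = if P a then c else 0 := by
  induction c with
  | zero => simp
  | succ c ih =>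
    rw [Multiset.replicate_succ]
    by_cases h : P a
    · rw [Multiset.countP_cons_of_pos _ h, ih, if_pos h, if_pos h]
    · rw [Multiset.countP_cons_of_neg _ h, ih, if_neg h, if_neg h]

private theorem sb13_countP {A : ℕ → ℕ} (hA : Antitone A) (r n : ℕ) :
    (∑ k ∈ Finset.range n, Multiset.replicate (A k - A (k + 1)) (k + 1)).countP
      (fun k => r < k) + A (max r n) = A r := by
  induction n with
  | zero => simp
  | succ n ih =>
    rw [Finset.sum_range_succ, Multiset.countP_add, sb13_rep]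
    have h1 := hA (Nat.le_succ n)
    by_cases hr : r < n + 1
    · rw [if_pos hr, max_eq_right (by omega)]
      rw [max_eq_right (by omega)] at ih
      have h2 : A n.succ = A (n + 1) := rfl
      omega
    · rw [if_neg hr, max_eq_left (by omega)]
      rw [max_eq_left (by omega)] at ih
      omega

private theorem sb13_count (A : ℕ → ℕ) (j n : ℕ) :
    (∑ k ∈ Finset.range n, Multiset.replicate (A k - A (k + 1)) (k + 1)).count (j + 1) =
      if j < n then A j - A (j + 1) else 0 := by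
  induction n with
  | zero => simp
  | succ n ih =>
    rw [Finset.sum_range_succ, Multiset.count_add, Multiset.count_replicate, ih]
    by_cases h1 : j = n
    · subst h1
      simp
    · have h2 : ¬ (n + 1 = j + 1) := by omega
      rw [if_neg h2, add_zero]
      by_cases h3 : j < n
      · rw [if_pos h3, if_pos (by omega)]
      · rw [if_neg h3, if_neg (by omega)]

/-- The heights of the columns of a partition. -/
theorem exists_heights {L : ℕ} {A : ℕ → ℕ} (hA : IsPart L A) :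
    ∃ s : Multiset ℕ, shape s = A ∧ (∀ k ∈ s, 1 ≤ k ∧ k ≤ L) ∧
      ∀ k, 1 ≤ k → (s.count k : ℤ) = A (k - 1) - A k := by
  obtain ⟨hA, h0⟩ := hA
  refine ⟨∑ k ∈ Finset.range L, Multiset.replicate (A k - A (k + 1)) (k + 1), ?_, ?_, ?_⟩
  · funext r
    have h1 := sb13_countP hA r L
    rw [h0 (max r L) (le_max_right r L), add_zero] at h1
    exact h1
  · intro k hk
    rw [Multiset.mem_sum] at hk
    obtain ⟨i, hi, hki⟩ := hk
    rw [Finset.mem_range] at hi
    rw [Multiset.eq_of_mem_replicate hki]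
    exact ⟨Nat.le_add_left 1 i, hi⟩
  · intro k hk
    obtain ⟨j, rfl⟩ : ∃ j, k = j + 1 := ⟨k - 1, by omega⟩
    rw [sb13_count, Nat.add_sub_cancel]
    by_cases hj : j < L
    · rw [if_pos hj, Nat.cast_sub (hA (Nat.le_succ j))]
    · rw [if_neg hj, h0 j (by omega), h0 (j + 1) (by omega)]
      simp

theorem schur_mono {L : ℕ} {A B A' B' : ℕ → ℕ} (hA : IsPart L A) (hB : IsPart L B)
    (hA' : IsPart L A') (hB' : IsPart L B') (α : ℕ → ℤ) {q : ℕ} (hq : 0 < q)
    (h1 : ∀ r, (B r : ℤ) - A r = q * α r) (h2 : ∀ r, (A' r : ℤ) = A r + α r)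
    (h3 : ∀ r, (B' r : ℤ) = B r - α r) :
    SchurPositive (schurF A' * schurF B' - schurF A * schurF B) := by
  obtain ⟨s, e1, b1, c1⟩ := exists_heights hA
  obtain ⟨t, e2, b2, c2⟩ := exists_heights hB
  obtain ⟨s', e3, b3, c3⟩ := exists_heights hA'
  obtain ⟨t', e4, b4, c4⟩ := exists_heights hB'
  have hstep : Step s t s' t' q := by
    intro k hk
    have hk1 : 1 ≤ k := Nat.one_le_iff_ne_zero.2 hk
    refine ⟨α (k - 1) - α k, ?_, ?_, ?_⟩
    · rw [c2 k hk1, c1 k hk1]
      linear_combination h1 (k - 1) - h1 k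
    · rw [c3 k hk1, c1 k hk1]
      linear_combination h2 (k - 1) - h2 k
    · rw [c4 k hk1, c2 k hk1]
      linear_combination h3 (k - 1) - h3 k
  obtain ⟨u, hu, h⟩ := poly_mono (N := 2 * L + 1) (m := L) (by omega) b1 b2 b3 b4 hq hstep
  rw [e1, e2, e3, e4] at h
  exact schurPositive_of_poly (N := 2 * L + 1) hA hB hA' hB' (by omega) u hu h

private theorem sb13_mul (v w : ℕ → ℤ) : SchurPositive (schurZ v * schurZ w) := by
  rcases T17_cases v with h1 | ⟨A, N, hA, hA0, h1⟩
  · rw [h1, zero_mul]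
    exact T17_zero
  · rcases T17_cases w with h2 | ⟨B, M, hB, hB0, h2⟩
    · rw [h2, mul_zero]
      exact T17_zero
    · rw [h1, h2]
      exact mul_positive (N := N + M) hB (fun r hr => hA0 r (by omega))
        (fun r hr => hB0 r (by omega))

/-- A mean of two partitions with integral entries is a partition. -/
private theorem sb13_mean {L : ℕ} {A B : ℕ → ℕ} (hA : IsPart L A) (hB : IsPart L B) {v : ℕ → ℤ}
    {x y z : ℕ} (hz : 0 < z) (h : ∀ r, (z : ℤ) * v r = x * A r + y * B r) :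
    ∃ D : ℕ → ℕ, IsPart L D ∧ ∀ r, (D r : ℤ) = v r := by
  have hz' : (0 : ℤ) < z := by exact_mod_cast hz
  have h0 : ∀ r, 0 ≤ v r := by
    intro r
    refine le_of_mul_le_mul_left ?_ hz'
    rw [mul_zero, h r]
    positivity
  have h1 : ∀ r, ((v r).toNat : ℤ) = v r := fun r => Int.toNat_of_nonneg (h0 r)
  refine ⟨fun r => (v r).toNat, ⟨?_, ?_⟩, h1⟩
  · intro a b hab
    refine Int.toNat_le_toNat ?_
    refine le_of_mul_le_mul_left ?_ hz'
    rw [h a, h b]
    have h2 : (A b : ℤ) ≤ A a := by exact_mod_cast hA.1 hab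
    have h3 : (B b : ℤ) ≤ B a := by exact_mod_cast hB.1 hab
    have h4 : (0 : ℤ) ≤ x := Int.natCast_nonneg x
    have h5 : (0 : ℤ) ≤ y := Int.natCast_nonneg y
    exact add_le_add (mul_le_mul_of_nonneg_left h2 h4) (mul_le_mul_of_nonneg_left h3 h5)
  · intro r hr
    have h2 : (z : ℤ) * v r = 0 := by
      rw [h r, hA.2 r hr, hB.2 r hr]
      simp
    rcases mul_eq_zero.1 h2 with h3 | h3
    · exact absurd h3 hz'.ne'
    · show (v r).toNat = 0
      rw [h3]
      rfl

/-- Strong Schur log-concavity along arithmetic progressions of partitions. -/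
theorem strong (lam : YoungDiagram) (α : ℕ →₀ ℤ) (n i : ℕ) (hn : 1 ≤ n) :
    SchurPositive (schurZ (prog lam α n) * schurZ (prog lam α (n + i))
      - schurZ (prog lam α (n - 1)) * schurZ (prog lam α (n + i + 1))) := by
  by_cases hs1 : ∃ μ, IsShape μ (prog lam α (n - 1))
  swap
  · rw [schurZ_zero hs1, zero_mul, sub_zero]
    exact sb13_mul _ _
  by_cases hs4 : ∃ μ, IsShape μ (prog lam α (n + i + 1))
  swap
  · rw [schurZ_zero hs4, mul_zero, sub_zero]
    exact sb13_mul _ _
  obtain ⟨μ, hμ⟩ := hs1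
  obtain ⟨ν, hν⟩ := hs4
  obtain ⟨n', rfl⟩ : ∃ n', n = n' + 1 := ⟨n - 1, by omega⟩
  rw [Nat.add_sub_cancel] at hμ ⊢
  obtain ⟨L1, hL1⟩ := rowLen_zero μ
  obtain ⟨L2, hL2⟩ := rowLen_zero ν
  have hA : IsPart (L1 + L2) μ.rowLen :=
    ⟨fun a b hab => μ.rowLen_anti a b hab, fun r hr => hL1 r (by omega)⟩
  have hB : IsPart (L1 + L2) ν.rowLen :=
    ⟨fun a b hab => ν.rowLen_anti a b hab, fun r hr => hL2 r (by omega)⟩
  obtain ⟨A', hA', hvA⟩ := sb13_mean hA hB (v := prog lam α (n' + 1)) (x := i + 1) (y := 1)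
    (z := i + 2) (by omega) (fun r => by
      rw [hμ r, hν r]
      unfold prog
      push_cast
      ring)
  obtain ⟨B', hB', hvB⟩ := sb13_mean hA hB (v := prog lam α (n' + 1 + i)) (x := 1) (y := i + 1)
    (z := i + 2) (by omega) (fun r => by
      rw [hμ r, hν r]
      unfold prog
      push_cast
      ring)
  rw [schurZ_eq hA'.1 hA'.2 hvA, schurZ_eq hB'.1 hB'.2 hvB, schurZ_eq hA.1 hA.2 hμ,
    schurZ_eq hB.1 hB.2 hν]
  refine schur_mono hA hB hA' hB' (fun r => α r) (q := i + 2) (by omega) ?_ ?_ ?_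
  · intro r
    rw [hμ r, hν r]
    unfold prog
    push_cast
    ring
  · intro r
    rw [hμ r, hvA r]
    unfold prog
    push_cast
    ring
  · intro r
    rw [hν r, hvB r]
    unfold prog
    push_cast
    ring

end MP967.Sym
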