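import Pool.Agent.Lib.MP_967fd7_co.Sym.QStable

/-! The lowest forms of determinants of block matrices. -/

namespace MP967.Sym

open MvPolynomial MP967.Rep

variable {N m : ℕ}

/-- `q` is the component of degree `n` of `p` and the components of smaller degree vanish. -/
def LF {C : Type} (H : Set C) (p q : Pol N C) (n : ℕ) : Prop :=
  (∀ j < n, hcomp H j p = 0) ∧ hcomp H n p = q

theorem LF.zero {C : Type} (H : Set C) (n : ℕ) : LF H (0 : Pol N C) 0 n :=
  ⟨fun _ _ => map_zero _, map_zero _⟩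

theorem LF.of_hom {C : Type} {H : Set C} {p : Pol N C} {n : ℕ}
    (hp : IsWeightedHomogeneous (hdeg H) p n) : LF H p p n :=
  ⟨fun j hj => hp.weightedHomogeneousComponent_ne j hj.ne,
    hp.weightedHomogeneousComponent_same⟩

theorem LF.mul {C : Type} {H : Set C} {p q p' q' : Pol N C} {n n' : ℕ} (h : LF H p q n)
    (h' : LF H p' q' n') : LF H (p * p') (q * q') (n + n') := by
  have h1 := rc19_w_low (hdeg H) p p' n n' h.1 h'.1
  refine ⟨h1.1, ?_⟩
  rw [← h.2, ← h'.2]
  exact h1.2

theorem LF.smul {C : Type} {H : Set C} {p q : Pol N C} {n : ℕ} (a : ℚ) (h : LF H p q n) :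
    LF H (a • p) (a • q) n := by
  refine ⟨fun j hj => ?_, ?_⟩
  · rw [map_smul, h.1 j hj, smul_zero]
  · rw [map_smul, h.2]

theorem LF.add {C : Type} {H : Set C} {p q p' q' : Pol N C} {n : ℕ} (h : LF H p q n)
    (h' : LF H p' q' n) : LF H (p + p') (q + q') n := by
  refine ⟨fun j hj => ?_, ?_⟩
  · rw [map_add, h.1 j hj, h'.1 j hj, add_zero]
  · rw [map_add, h.2, h'.2]

theorem LF.higher {C : Type} {H : Set C} {p q p' : Pol N C} {n : ℕ} (h : LF H p q n)
    (h' : LF H p' 0 n) : LF H (p + p') q n := by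
  have h1 := h.add h'
  rwa [add_zero] at h1

/-- a form of degree `n` has no components of smaller degree -/
theorem LF.of_lt {C : Type} {H : Set C} {p : Pol N C} {n k : ℕ}
    (hp : IsWeightedHomogeneous (hdeg H) p n) (hk : k < n) : LF H p 0 k :=
  ⟨fun j hj => hp.weightedHomogeneousComponent_ne j (by omega),
    hp.weightedHomogeneousComponent_ne k hk.ne⟩

theorem LF.sum {C : Type} {H : Set C} {ι : Type} (s : Finset ι) {p q : ι → Pol N C} {n : ℕ}
    (h : ∀ i ∈ s, LF H (p i) (q i) n) : LF H (∑ i ∈ s, p i) (∑ i ∈ s, q i) n := by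
  refine ⟨fun j hj => ?_, ?_⟩
  · rw [map_sum]
    exact Finset.sum_eq_zero fun i hi => (h i hi).1 j hj
  · rw [map_sum]
    exact Finset.sum_congr rfl fun i hi => (h i hi).2

theorem LF.prod {C : Type} {H : Set C} {ι : Type} (s : Finset ι) {p q : ι → Pol N C}
    {n : ι → ℕ} (h : ∀ i ∈ s, LF H (p i) (q i) (n i)) :
    LF H (∏ i ∈ s, p i) (∏ i ∈ s, q i) (∑ i ∈ s, n i) := by
  classical
  induction s using Finset.induction_on with
  | empty =>
    rw [Finset.prod_empty, Finset.prod_empty, Finset.sum_empty]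
    exact LF.of_hom (isWeightedHomogeneous_one ℚ _)
  | insert a s ha ih =>
    rw [Finset.prod_insert ha, Finset.prod_insert ha, Finset.sum_insert ha]
    exact (h a (Finset.mem_insert_self a s)).mul
      (ih fun i hi => h i (Finset.mem_insert_of_mem hi))

theorem hom_g (r : Fin N) (j : ℕ) :
    IsWeightedHomogeneous (hdeg (Hs m)) (X (r, gc m j) : Pol N (Cols m)) 0 := by
  have h1 := isWeightedHomogeneous_X (R := ℚ) (hdeg (N := N) (Hs m)) (r, gc m j)
  have h2 : hdeg (N := N) (Hs m) (r, gc m j) = 0 := by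
    unfold hdeg
    rw [if_neg]
    rintro ⟨x, hx⟩
    exact Sum.inr_ne_inl hx
  rwa [h2] at h1

theorem hom_h (r : Fin N) (j : ℕ) :
    IsWeightedHomogeneous (hdeg (Hs m)) (X (r, hc m j) : Pol N (Cols m)) 1 := by
  have h1 := isWeightedHomogeneous_X (R := ℚ) (hdeg (N := N) (Hs m)) (r, hc m j)
  have h2 : hdeg (N := N) (Hs m) (r, hc m j) = 1 := by
    unfold hdeg
    exact if_pos ⟨_, rfl⟩
  rwa [h2] at h1

/-- The degree of the entry of the row `x` and the column `j` in `h`. -/
def dg {k l : ℕ} (x : Fin N ⊕ Fin N) (j : Fin k ⊕ Fin l) : ℕ :=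
  match x, j with
  | Sum.inr _, Sum.inl _ => 1
  | _, _ => 0

/-- The number of the lower rows. -/
def nlow {k l : ℕ} (ρ : Fin k ⊕ Fin l → Fin N ⊕ Fin N) : ℕ :=
  ∑ i, (match ρ i with
    | Sum.inl _ => 0
    | Sum.inr _ => 1)

/-- The lowest form of the determinant: it is enough that the entries have the lowest forms
`u ^ (degree) * (entry of gen)`. The degree is the number of lower rows minus `l`. -/
theorem LF.det {k l : ℕ} (u : ℚ) (ρ : Fin k ⊕ Fin l → Fin N ⊕ Fin N)
    (M : Matrix (Fin k ⊕ Fin l) (Fin k ⊕ Fin l) (Pol N (Cols m)))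
    (h0 : ∀ i r c, ρ i = Sum.inl r → M i (Sum.inr c) = 0)
    (h : ∀ i j, LF (Hs m) (M i j) (u ^ dg (ρ i) j • ent N m (ρ i) j) (dg (ρ i) j)) :
    LF (Hs m) M.det (u ^ (nlow ρ - l) • gen N m k l ρ) (nlow ρ - l) := by
  classical
  unfold gen
  rw [Matrix.det_apply, Matrix.det_apply, Finset.smul_sum]
  refine LF.sum _ fun σ _ => ?_
  have key : LF (Hs m) (∏ i, M (σ i) i) (u ^ (nlow ρ - l) • ∏ i, ent N m (ρ (σ i)) i)
      (nlow ρ - l) := by
    by_cases hup : ∃ (c : Fin l) (r : Fin N), ρ (σ (Sum.inr c)) = Sum.inl r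
    · obtain ⟨c, r, hcr⟩ := hup
      have e1 : ∏ i, M (σ i) i = 0 :=
        Finset.prod_eq_zero (Finset.mem_univ (Sum.inr c)) (h0 _ r c hcr)
      have e2 : ∏ i, ent N m (ρ (σ i)) i = 0 := by
        refine Finset.prod_eq_zero (Finset.mem_univ (Sum.inr c)) ?_
        rw [hcr]
        rfl
      rw [e1, e2, smul_zero]
      exact LF.zero _ _
    · have hlow : ∀ c : Fin l, ∃ r : Fin N, ρ (σ (Sum.inr c)) = Sum.inr r := by
        intro c
        rcases h1 : ρ (σ (Sum.inr c)) with r | r
        · exact absurd ⟨c, r, h1⟩ hup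
        · exact ⟨r, rfl⟩
      have hsum : ∑ i, dg (ρ (σ i)) i = nlow ρ - l := by
        have e1 : nlow ρ = ∑ i, (match ρ (σ i) with
            | Sum.inl _ => 0
            | Sum.inr _ => 1) := by
          unfold nlow
          exact (Equiv.sum_comp σ (fun i => (match ρ i with
            | Sum.inl _ => 0
            | Sum.inr _ => 1))).symm
        rw [Fintype.sum_sum_type] at e1
        have e2 : ∑ c : Fin l, (match ρ (σ (Sum.inr c)) with
            | Sum.inl _ => 0
            | Sum.inr _ => 1) = l := by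
          rw [Finset.sum_congr rfl (g := fun _ => 1), Finset.sum_const, Finset.card_univ,
            Fintype.card_fin, smul_eq_mul, mul_one]
          intro c _
          obtain ⟨r, hr⟩ := hlow c
          rw [hr]
        rw [Fintype.sum_sum_type]
        have e3 : ∑ c : Fin l, dg (ρ (σ (Sum.inr c))) (Sum.inr c : Fin k ⊕ Fin l) = 0 := by
          refine Finset.sum_eq_zero fun c _ => ?_
          obtain ⟨r, hr⟩ := hlow c
          rw [hr]
          rfl
        have e4 : ∑ c : Fin k, dg (ρ (σ (Sum.inl c))) (Sum.inl c : Fin k ⊕ Fin l) =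
            ∑ c : Fin k, (match ρ (σ (Sum.inl c)) with
            | Sum.inl _ => 0
            | Sum.inr _ => 1) := by
          refine Finset.sum_congr rfl fun c _ => ?_
          rcases ρ (σ (Sum.inl c)) with r | r <;> rfl
        rw [e3, e4]
        omega
      have h1 := LF.prod Finset.univ (fun i _ => h (σ i) i)
      rw [hsum] at h1
      have e5 : ∏ i, u ^ dg (ρ (σ i)) i • ent N m (ρ (σ i)) i =
          u ^ (nlow ρ - l) • ∏ i, ent N m (ρ (σ i)) i := by
        rw [← hsum, ← Finset.prod_pow_eq_pow_sum]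
        exact Finset.prod_smul _ _ _
      rwa [e5] at h1
  have h2 := key.smul ((Equiv.Perm.sign σ : ℤ) : ℚ)
  have h3 : ∀ p : Pol N (Cols m), ((Equiv.Perm.sign σ : ℤ) : ℚ) • p = Equiv.Perm.sign σ • p := by
    intro p
    rw [Units.smul_def, Int.cast_smul_eq_zsmul]
  rw [h3, h3, smul_comm (Equiv.Perm.sign σ)] at h2
  exact h2

/-- The column operation: the column `j` of the second block is added `v` times to the column
`j` of the first block. -/
theorem det_colop {R : Type} [CommRing R] {k l : ℕ} (hkl : k ≤ l) (v : R)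
    (T M : Matrix (Fin k ⊕ Fin l) (Fin k ⊕ Fin l) R)
    (h1 : ∀ i c, M i (Sum.inr c) = T i (Sum.inr c))
    (h2 : ∀ i (c : Fin k), M i (Sum.inl c) =
      T i (Sum.inl c) + T i (Sum.inr (Fin.castLE hkl c)) * v) : M.det = T.det := by
  classical
  obtain ⟨U, hU⟩ : ∃ U : Matrix (Fin k ⊕ Fin l) (Fin k ⊕ Fin l) R, U =
    Matrix.fromBlocks 1 0 (Matrix.of fun (c' : Fin l) (c : Fin k) =>
      if c' = Fin.castLE hkl c then v else 0) 1 := ⟨_, rfl⟩
  have hdet : U.det = 1 := by
    rw [hU, Matrix.det_fromBlocks_zero₁₂, Matrix.det_one, Matrix.det_one, one_mul]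
  have hM : M = T * U := by
    ext i j
    rw [Matrix.mul_apply, Fintype.sum_sum_type]
    rcases j with c | c
    · rw [h2, hU]
      congr 1
      · simp [Matrix.fromBlocks_apply₁₁, Matrix.one_apply]
      · simp [Matrix.fromBlocks_apply₂₁]
    · rw [h1, hU]
      simp [Matrix.fromBlocks_apply₁₂, Matrix.fromBlocks_apply₂₂, Matrix.one_apply]
  rw [hM, Matrix.det_mul, hdet, mul_one]

end MP967.Sym
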