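import Pool.Agent.Lib.MP_967fd7_co.Sym.QStable
import Pool.Agent.Lib.MP_967fd7_co.Sym.QLowA

/-! The spaces `Q` consist of lowest forms. -/

namespace MP967.Sym

open MvPolynomial MP967.Rep

variable {N m : ℕ}

theorem Pk_zero {C : Type} (c : ℕ → C) : Pk N c 0 = 1 := by
  unfold Pk
  rw [Submodule.one_eq_span]
  congr 1
  ext p
  constructor
  · rintro ⟨I, rfl⟩
    exact Matrix.det_isEmpty
  · intro hp
    rw [Set.mem_singleton_iff] at hp
    exact ⟨Fin.elim0, by rw [hp]; exact Matrix.det_isEmpty⟩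

/-- The Laplace expansion as an average. -/
private theorem sb2_avg {A : Type} [CommRing A] {k l : ℕ}
    (M : Matrix (Fin k ⊕ Fin l) (Fin k ⊕ Fin l) A) :
    (k.factorial * l.factorial) • M.det = ∑ σ : Equiv.Perm (Fin k ⊕ Fin l),
      Equiv.Perm.sign σ •
        (Matrix.det (Matrix.of fun i j : Fin k => M (σ (Sum.inl i)) (Sum.inl j)) *
          Matrix.det (Matrix.of fun i j : Fin l => M (σ (Sum.inr i)) (Sum.inr j))) := by
  have h1 : ∀ (π₁ : Equiv.Perm (Fin k)) (π₂ : Equiv.Perm (Fin l)),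
      M.det = ∑ σ : Equiv.Perm (Fin k ⊕ Fin l), Equiv.Perm.sign σ •
        ((Equiv.Perm.sign π₁ • ∏ i, M (σ (Sum.inl (π₁ i))) (Sum.inl i)) *
          (Equiv.Perm.sign π₂ • ∏ i, M (σ (Sum.inr (π₂ i))) (Sum.inr i))) := by
    intro π₁ π₂
    rw [Matrix.det_apply, ← Equiv.sum_comp (Equiv.mulRight (Equiv.Perm.sumCongr π₁ π₂))]
    refine Finset.sum_congr rfl fun σ _ => ?_
    rw [Equiv.coe_mulRight, Equiv.Perm.sign_mul, Equiv.Perm.sign_sumCongr, Fintype.prod_sum_type,
      smul_mul_smul_comm, mul_smul]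
    rfl
  have h2 : (k.factorial * l.factorial) • M.det =
      ∑ _π₁ : Equiv.Perm (Fin k), ∑ _π₂ : Equiv.Perm (Fin l), M.det := by
    rw [Finset.sum_const, Finset.sum_const, Finset.card_univ, Finset.card_univ,
      Fintype.card_perm, Fintype.card_perm, Fintype.card_fin, Fintype.card_fin, mul_smul]
  rw [h2, Finset.sum_congr rfl fun π₁ _ => Finset.sum_congr rfl fun π₂ _ => h1 π₁ π₂]
  simp_rw [Finset.sum_comm (s := (Finset.univ : Finset (Equiv.Perm (Fin l))))
    (t := (Finset.univ : Finset (Equiv.Perm (Fin k ⊕ Fin l))))]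
  rw [Finset.sum_comm]
  refine Finset.sum_congr rfl fun σ _ => ?_
  rw [Matrix.det_apply, Matrix.det_apply, Finset.sum_mul_sum, Finset.smul_sum]
  refine Finset.sum_congr rfl fun π₁ _ => ?_
  rw [Finset.smul_sum]
  rfl

/-- Laplace expansion: the minors of `[[x_k, 0], [x_k, y_l]]` are in `P_k(x) P_l(y)`. -/
theorem laplace1 {C : Type} (x y : ℕ → C) (k l : ℕ) (ρ : Fin k ⊕ Fin l → Fin N ⊕ Fin N) :
    Matrix.det (Matrix.of fun (i j : Fin k ⊕ Fin l) => (match ρ i, j with
      | Sum.inl r, Sum.inl c => X (r, x c)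
      | Sum.inl _, Sum.inr _ => 0
      | Sum.inr r, Sum.inl c => X (r, x c)
      | Sum.inr r, Sum.inr c => X (r, y c) : Pol N C)) ∈ Pk N x k * Pk N y l := by
  set M : Matrix (Fin k ⊕ Fin l) (Fin k ⊕ Fin l) (Pol N C) :=
    Matrix.of fun (i j : Fin k ⊕ Fin l) => (match ρ i, j with
      | Sum.inl r, Sum.inl c => X (r, x c)
      | Sum.inl _, Sum.inr _ => 0
      | Sum.inr r, Sum.inl c => X (r, x c)
      | Sum.inr r, Sum.inr c => X (r, y c) : Pol N C) with hM
  have hx : ∀ i c, M i (Sum.inl c) = X (Sum.elim id id (ρ i), x c) := by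
    intro i c
    rw [hM, Matrix.of_apply]
    cases ρ i <;> rfl
  have hy0 : ∀ i r c, ρ i = Sum.inl r → M i (Sum.inr c) = 0 := by
    intro i r c hi
    rw [hM, Matrix.of_apply, hi]
  have hy : ∀ i r c, ρ i = Sum.inr r → M i (Sum.inr c) = X (r, y c) := by
    intro i r c hi
    rw [hM, Matrix.of_apply, hi]
  have key : (k.factorial * l.factorial) • M.det ∈ Pk N x k * Pk N y l := by
    rw [sb2_avg]
    refine Submodule.sum_mem _ fun σ _ => ?_
    rw [Units.smul_def]
    refine zsmul_mem (Submodule.mul_mem_mul ?_ ?_) _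
    · refine Submodule.subset_span ⟨fun i => Sum.elim id id (ρ (σ (Sum.inl i))), ?_⟩
      unfold minor
      congr 1
      ext1 i j
      rw [Matrix.of_apply, Matrix.of_apply, hx]
    · by_cases hup : ∃ i r, ρ (σ (Sum.inr i)) = Sum.inl r
      · obtain ⟨i, r, hi⟩ := hup
        rw [Matrix.det_eq_zero_of_row_eq_zero i fun j => ?_]
        · exact Submodule.zero_mem _
        · rw [Matrix.of_apply]
          exact hy0 _ r j hi
      · push Not at hup
        refine Submodule.subset_span ⟨fun i => Sum.elim id id (ρ (σ (Sum.inr i))), ?_⟩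
        unfold minor
        congr 1
        ext1 i j
        rw [Matrix.of_apply, Matrix.of_apply]
        cases h : ρ (σ (Sum.inr i)) with
        | inl r => exact absurd h (hup i r)
        | inr r =>
          rw [hy _ r j h]
          show X (Sum.elim id id (ρ (σ (Sum.inr i))), y j) = X (r, y j)
          rw [h]
          rfl
  have hne : ((k.factorial * l.factorial : ℕ) : ℚ) ≠ 0 :=
    Nat.cast_ne_zero.2 (Nat.mul_ne_zero (Nat.factorial_ne_zero k) (Nat.factorial_ne_zero l))
  have h1 : M.det = ((k.factorial * l.factorial : ℕ) : ℚ)⁻¹ •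
      ((k.factorial * l.factorial) • M.det) := by
    rw [← Nat.cast_smul_eq_nsmul ℚ, smul_smul, inv_mul_cancel₀ hne, one_smul]
  rw [h1]
  exact Submodule.smul_mem _ _ key

theorem SB4_tau_g (r : Fin N) (j : ℕ) : tauH N m (X (r, gc m j)) = X (r, gc m j) := by
  unfold tauH
  rw [aeval_X]
  rfl

theorem SB4_tau_h (r : Fin N) (j : ℕ) :
    tauH N m (X (r, hc m j)) = X (r, gc m j) + X (r, hc m j) := by
  unfold tauH
  rw [aeval_X]
  rfl

/-- Case `x` of height `k`, `y` of height `l`. -/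
theorem Q_le_low1 {k l : ℕ} (hkl : k ≤ l) :
    Q N m k l ≤ low (Hs m) ((Pk N (gc m) k * Pk N (hc m) l).map (tauH N m).toLinearMap) := by
  unfold Q
  rw [Submodule.span_le]
  rintro _ ⟨ρ, rfl⟩
  obtain ⟨F0, hF0⟩ : ∃ F0 : Matrix (Fin k ⊕ Fin l) (Fin k ⊕ Fin l) (Pol N (Cols m)),
    F0 = Matrix.of fun (i j : Fin k ⊕ Fin l) => (match ρ i, j with
      | Sum.inl r, Sum.inl c => X (r, gc m c)
      | Sum.inl _, Sum.inr _ => 0
      | Sum.inr r, Sum.inl c => X (r, gc m c)
      | Sum.inr r, Sum.inr c => X (r, hc m c) : Pol N (Cols m)) := ⟨_, rfl⟩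
  have hF : F0.det ∈ Pk N (gc m) k * Pk N (hc m) l := by
    rw [hF0]
    exact laplace1 (gc m) (hc m) k l ρ
  obtain ⟨T, hT⟩ : ∃ T : Matrix (Fin k ⊕ Fin l) (Fin k ⊕ Fin l) (Pol N (Cols m)),
    T = (tauH N m).mapMatrix F0 := ⟨_, rfl⟩
  obtain ⟨M, hM⟩ : ∃ M : Matrix (Fin k ⊕ Fin l) (Fin k ⊕ Fin l) (Pol N (Cols m)),
    M = Matrix.of fun (i j : Fin k ⊕ Fin l) => (match ρ i, j with
      | Sum.inl r, Sum.inl c => X (r, gc m c)
      | Sum.inl _, Sum.inr _ => 0
      | Sum.inr r, Sum.inl c => -X (r, hc m c)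
      | Sum.inr r, Sum.inr c => X (r, gc m c) + X (r, hc m c) : Pol N (Cols m)) := ⟨_, rfl⟩
  have hTe : ∀ i j, T i j = tauH N m (F0 i j) := by
    intro i j
    rw [hT]
    rfl
  have hdet : M.det = tauH N m F0.det := by
    rw [AlgHom.map_det, ← hT]
    refine det_colop hkl (-1) T M ?_ ?_
    · intro i c
      rw [hTe, hM, hF0, Matrix.of_apply, Matrix.of_apply]
      rcases ρ i with r | r
      · exact (map_zero _).symm
      · exact (SB4_tau_h r c).symm
    · intro i c
      rw [hTe, hTe, hM, hF0, Matrix.of_apply, Matrix.of_apply, Matrix.of_apply]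
      rcases ρ i with r | r
      · simp only
        rw [SB4_tau_g, map_zero, zero_mul, add_zero]
      · simp only
        rw [SB4_tau_h, SB4_tau_g, Fin.val_castLE]
        ring
  have hlf := LF.det (-1) ρ M (by
    intro i r c hi
    rw [hM, Matrix.of_apply, hi]) (by
    intro i j
    rw [hM, Matrix.of_apply]
    rcases ρ i with r | r
    · rcases j with c | c
      · change LF (Hs m) (X (r, gc m c))
          ((-1 : ℚ) ^ 0 • X (r, gc m c) : Pol N (Cols m)) 0
        rw [pow_zero, one_smul]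
        exact LF.of_hom (hom_g r c)
      · change LF (Hs m) 0 ((-1 : ℚ) ^ 0 • 0 : Pol N (Cols m)) 0
        rw [smul_zero]
        exact LF.zero _ _
    · rcases j with c | c
      · change LF (Hs m) (-X (r, hc m c)) ((-1 : ℚ) ^ 1 • X (r, hc m c) : Pol N (Cols m)) 1
        rw [pow_one]
        have h1 := (LF.of_hom (hom_h (N := N) (m := m) r c)).smul (-1)
        rw [neg_smul, one_smul] at h1 ⊢
        exact h1
      · change LF (Hs m) (X (r, gc m c) + X (r, hc m c))
          ((-1 : ℚ) ^ 0 • X (r, gc m c) : Pol N (Cols m)) 0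
        rw [pow_zero, one_smul]
        exact (LF.of_hom (hom_g r c)).higher (LF.of_lt (hom_h r c) one_pos))
  rw [hdet] at hlf
  have h2 : (-1 : ℚ) ^ (nlow ρ - l) • gen N m k l ρ ∈
      low (Hs m) ((Pk N (gc m) k * Pk N (hc m) l).map (tauH N m).toLinearMap) :=
    Submodule.subset_span ⟨tauH N m F0.det, ⟨F0.det, hF, rfl⟩, nlow ρ - l, hlf.1, hlf.2⟩
  have h3 := Submodule.smul_mem _ ((-1 : ℚ) ^ (nlow ρ - l)) h2
  rw [smul_smul, ← mul_pow, neg_mul_neg, one_mul, one_pow, one_smul] at h3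
  exact h3

/-- Case `x` of height `l`, `y` of height `k`. -/
theorem Q_le_low2 {k l : ℕ} (hkl : k ≤ l) :
    Q N m k l ≤ low (Hs m) ((Pk N (gc m) l * Pk N (hc m) k).map (tauH N m).toLinearMap) := by
  unfold Q
  rw [Submodule.span_le]
  rintro _ ⟨ρ, rfl⟩
  obtain ⟨F0, hF0⟩ : ∃ F0 : Matrix (Fin k ⊕ Fin l) (Fin k ⊕ Fin l) (Pol N (Cols m)),
    F0 = Matrix.of fun (i j : Fin k ⊕ Fin l) => (match ρ i, j with
      | Sum.inl r, Sum.inl c => X (r, hc m c)
      | Sum.inl _, Sum.inr _ => 0
      | Sum.inr r, Sum.inl c => X (r, hc m c)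
      | Sum.inr r, Sum.inr c => X (r, gc m c) : Pol N (Cols m)) := ⟨_, rfl⟩
  have hF : F0.det ∈ Pk N (gc m) l * Pk N (hc m) k := by
    rw [mul_comm, hF0]
    exact laplace1 (hc m) (gc m) k l ρ
  obtain ⟨T, hT⟩ : ∃ T : Matrix (Fin k ⊕ Fin l) (Fin k ⊕ Fin l) (Pol N (Cols m)),
    T = (tauH N m).mapMatrix F0 := ⟨_, rfl⟩
  obtain ⟨M, hM⟩ : ∃ M : Matrix (Fin k ⊕ Fin l) (Fin k ⊕ Fin l) (Pol N (Cols m)),
    M = Matrix.of fun (i j : Fin k ⊕ Fin l) => (match ρ i, j with
      | Sum.inl r, Sum.inl c => X (r, gc m c) + X (r, hc m c)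
      | Sum.inl _, Sum.inr _ => 0
      | Sum.inr r, Sum.inl c => X (r, hc m c)
      | Sum.inr r, Sum.inr c => X (r, gc m c) : Pol N (Cols m)) := ⟨_, rfl⟩
  have hTe : ∀ i j, T i j = tauH N m (F0 i j) := by
    intro i j
    rw [hT]
    rfl
  have hdet : M.det = tauH N m F0.det := by
    rw [AlgHom.map_det, ← hT]
    refine det_colop hkl (-1) T M ?_ ?_
    · intro i c
      rw [hTe, hM, hF0, Matrix.of_apply, Matrix.of_apply]
      rcases ρ i with r | r
      · exact (map_zero _).symm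
      · exact (SB4_tau_g r c).symm
    · intro i c
      rw [hTe, hTe, hM, hF0, Matrix.of_apply, Matrix.of_apply, Matrix.of_apply]
      rcases ρ i with r | r
      · simp only
        rw [SB4_tau_h, map_zero, zero_mul, add_zero]
      · simp only
        rw [SB4_tau_h, SB4_tau_g, Fin.val_castLE]
        ring
  have hlf := LF.det 1 ρ M (by
    intro i r c hi
    rw [hM, Matrix.of_apply, hi]) (by
    intro i j
    rw [hM, Matrix.of_apply]
    rcases ρ i with r | r
    · rcases j with c | c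
      · change LF (Hs m) (X (r, gc m c) + X (r, hc m c))
          ((1 : ℚ) ^ 0 • X (r, gc m c) : Pol N (Cols m)) 0
        rw [pow_zero, one_smul]
        exact (LF.of_hom (hom_g r c)).higher (LF.of_lt (hom_h r c) one_pos)
      · change LF (Hs m) 0 ((1 : ℚ) ^ 0 • 0 : Pol N (Cols m)) 0
        rw [smul_zero]
        exact LF.zero _ _
    · rcases j with c | c
      · change LF (Hs m) (X (r, hc m c)) ((1 : ℚ) ^ 1 • X (r, hc m c) : Pol N (Cols m)) 1
        rw [pow_one, one_smul]
        exact LF.of_hom (hom_h r c)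
      · change LF (Hs m) (X (r, gc m c)) ((1 : ℚ) ^ 0 • X (r, gc m c) : Pol N (Cols m)) 0
        rw [pow_zero, one_smul]
        exact LF.of_hom (hom_g r c))
  rw [one_pow, one_smul, hdet] at hlf
  exact Submodule.subset_span ⟨tauH N m F0.det, ⟨F0.det, hF, rfl⟩, nlow ρ - l, hlf.1, hlf.2⟩

theorem SB5_QQ (a b : ℕ) :
    QQ N m (a, b) ≤ low (Hs m) ((Pk N (gc m) a * Pk N (hc m) b).map (tauH N m).toLinearMap) := by
  unfold QQ
  rcases le_total a b with h | h
  · rw [min_eq_left h, max_eq_right h]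
    exact Q_le_low1 h
  · rw [min_eq_right h, max_eq_left h]
    exact Q_le_low2 h

theorem SB5_V {C : Type} (c : ℕ → C) (k : ℕ) (s : Multiset ℕ) :
    V N c ((k ::ₘ s).filter (fun k => k ≠ 0)) = Pk N c k * V N c (s.filter (fun k => k ≠ 0)) := by
  by_cases hk : k = 0
  · rw [Multiset.filter_cons_of_neg (p := fun k => k ≠ 0) _ (by simpa using hk), hk, Pk_zero,
      one_mul]
  · rw [Multiset.filter_cons_of_pos (p := fun k => k ≠ 0) _ hk]
    unfold V
    rw [Multiset.map_cons, Multiset.prod_cons]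

theorem SB5_match (M : Multiset (ℕ × ℕ)) : (M.map (QQ N m)).prod ≤
    low (Hs m) ((V N (gc m) ((M.map Prod.fst).filter (fun k => k ≠ 0)) *
      V N (hc m) ((M.map Prod.snd).filter (fun k => k ≠ 0))).map (tauH N m).toLinearMap) := by
  induction M using Multiset.induction_on with
  | empty =>
    rw [Multiset.map_zero, Multiset.prod_zero, Multiset.map_zero, Multiset.map_zero,
      Multiset.filter_zero]
    have h1 : ∀ c : ℕ → Cols m, V N c 0 = 1 := by
      intro c
      unfold V
      rw [Multiset.map_zero, Multiset.prod_zero]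
    rw [h1, h1, one_mul, Submodule.map_one, Submodule.one_le]
    refine Submodule.subset_span ⟨1, Submodule.one_le.1 le_rfl, 0,
      fun j hj => absurd hj (Nat.not_lt_zero j), ?_⟩
    exact (LF.of_hom (isWeightedHomogeneous_one ℚ _)).2
  | cons a M ih =>
    obtain ⟨a, b⟩ := a
    rw [Multiset.map_cons, Multiset.prod_cons, Multiset.map_cons, Multiset.map_cons, SB5_V,
      SB5_V]
    have h1 : Pk N (gc m) a * V N (gc m) ((M.map Prod.fst).filter (fun k => k ≠ 0)) *
        (Pk N (hc m) b * V N (hc m) ((M.map Prod.snd).filter (fun k => k ≠ 0))) =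
        (Pk N (gc m) a * Pk N (hc m) b) *
          (V N (gc m) ((M.map Prod.fst).filter (fun k => k ≠ 0)) *
            V N (hc m) ((M.map Prod.snd).filter (fun k => k ≠ 0))) := by
      rw [mul_mul_mul_comm]
    rw [h1, Submodule.map_mul]
    exact (mul_le_mul' (SB5_QQ a b) ih).trans (low_mul_le _ _ _)

theorem P_le_low (s t : Multiset ℕ) :
    P N m s t ≤ low (Hs m) ((V N (gc m) s * V N (hc m) t).map (tauH N m).toLinearMap) := by
  unfold P
  refine iSup_le fun M => ?_
  have h1 := SB5_match (N := N) (m := m) M.1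
  rw [M.2.1, M.2.2] at h1
  exact h1

theorem SB5_fg (s t : Multiset ℕ) :
    ((V N (gc m) s * V N (hc m) t).map (tauH N m).toLinearMap).FG :=
  ((stable_V (gc m) s).mul (stable_V (hc m) t)).fin.map _

theorem stable_P (s t : Multiset ℕ) : Stable (P N m s t) := by
  have hst : ∀ M : {M : Multiset (ℕ × ℕ) // IsMatch s t M}, Stable (M.1.map (QQ N m)).prod := by
    intro M
    refine stable_prod fun W hW => ?_
    obtain ⟨p, _, rfl⟩ := Multiset.mem_map.1 hW
    exact stable_QQ p
  refine ⟨?_, fun p hp β => ?_, fun a b p hp => ?_⟩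
  · have h1 : FiniteDimensional ℚ ↥(low (Hs m)
        ((V N (gc m) s * V N (hc m) t).map (tauH N m).toLinearMap)) :=
      Module.Finite.iff_fg.2 (low_fg (Hs m) (SB5_fg s t))
    exact Module.Finite.iff_fg.1 (Submodule.finiteDimensional_of_le (P_le_low s t))
  · unfold P at hp ⊢
    refine Submodule.iSup_induction _ (motive := fun p => comp β p ∈ ⨆ M :
      {M : Multiset (ℕ × ℕ) // IsMatch s t M}, (M.1.map (QQ N m)).prod) hp
      (fun i x hx => ?_) ?_ fun x y hx hy => ?_
    · exact Submodule.mem_iSup_of_mem i ((hst i).hom x hx β)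
    · rw [map_zero]
      exact Submodule.zero_mem _
    · rw [map_add]
      exact Submodule.add_mem _ hx hy
  · unfold P at hp ⊢
    refine Submodule.iSup_induction _ (motive := fun p => E a b p ∈ ⨆ M :
      {M : Multiset (ℕ × ℕ) // IsMatch s t M}, (M.1.map (QQ N m)).prod) hp
      (fun i x hx => ?_) ?_ fun x y hx hy => ?_
    · exact Submodule.mem_iSup_of_mem i ((hst i).act a b x hx)
    · rw [map_zero]
      exact Submodule.zero_mem _
    · rw [map_add]
      exact Submodule.add_mem _ hx hy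

/-- the inverse substitution -/
noncomputable def SB5_inv (N m : ℕ) : Pol N (Cols m) →ₐ[ℚ] Pol N (Cols m) :=
  aeval (fun p : Fin N × Cols m => match p.2 with
    | Sum.inl c => X (p.1, Sum.inl c)
    | Sum.inr c => X (p.1, Sum.inr c) - X (p.1, Sum.inl c))

/-- the substitution is bijective -/
noncomputable def SB5_eq (N m : ℕ) : Pol N (Cols m) ≃ₐ[ℚ] Pol N (Cols m) :=
  AlgEquiv.ofAlgHom (tauH N m) (SB5_inv N m)
    (by
      apply MvPolynomial.algHom_ext
      rintro ⟨r, c | c⟩
      · simp [SB5_inv, tauH]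
      · simp [SB5_inv, tauH])
    (by
      apply MvPolynomial.algHom_ext
      rintro ⟨r, c | c⟩
      · simp [SB5_inv, tauH]
      · simp [SB5_inv, tauH])

theorem SB5_eq_lin : (SB5_eq N m).toLinearMap = (tauH N m).toLinearMap := rfl

theorem SB5_wt (β : Fin N →₀ ℕ) (p : Pol N (Cols m)) (hp : p ∈ wtSpace (Cols m) β) :
    SB5_eq N m p ∈ wtSpace (Cols m) β := by
  classical
  change tauH N m p ∈ wtSpace (Cols m) β
  have hX : ∀ x : Fin N × Cols m, IsWeightedHomogeneous rowWt
      (match x.2 with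
        | Sum.inl c => X (x.1, Sum.inl c)
        | Sum.inr c => X (x.1, Sum.inl c) + X (x.1, Sum.inr c) : Pol N (Cols m))
      (Finsupp.single x.1 1) := by
    rintro ⟨r, c | c⟩
    · exact isWeightedHomogeneous_X ℚ rowWt (r, Sum.inl c)
    · exact (isWeightedHomogeneous_X ℚ rowWt (r, Sum.inl c)).add
        (isWeightedHomogeneous_X ℚ rowWt (r, Sum.inr c))
  rw [p.as_sum, map_sum]
  refine Submodule.sum_mem _ fun e he => ?_
  have hwe : Finsupp.weight rowWt e = β := hp (mem_support_iff.1 he)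
  unfold tauH
  rw [aeval_monomial, ← Algebra.smul_def]
  refine Submodule.smul_mem _ _ ?_
  have h1 := IsWeightedHomogeneous.prod e.support
    (fun x : Fin N × Cols m => (match x.2 with
        | Sum.inl c => X (x.1, Sum.inl c)
        | Sum.inr c => X (x.1, Sum.inl c) + X (x.1, Sum.inr c) : Pol N (Cols m)) ^ e x)
    (fun x => e x • Finsupp.single x.1 1) (fun x _ => (hX x).pow (e x))
  have h2 : ∑ x ∈ e.support, e x • (Finsupp.single x.1 1 : Fin N →₀ ℕ) = β := by
    rw [← hwe, Finsupp.weight_apply, Finsupp.sum]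
    rfl
  rw [h2] at h1
  exact h1

/-- The substitution does not change the character. -/
theorem ch_tauH (s t : Multiset ℕ) :
    ch ((V N (gc m) s * V N (hc m) t).map (tauH N m).toLinearMap) =
      ch (V N (gc m) s * V N (hc m) t) := by
  have h1 := (stable_V (N := N) (gc m) s).mul (stable_V (hc m) t)
  have h2 : ∀ β, mult ((V N (gc m) s * V N (hc m) t).map (tauH N m).toLinearMap) β =
      mult (V N (gc m) s * V N (hc m) t) β := by
    intro β
    rw [← SB5_eq_lin]
    exact mult_map (SB5_eq N m) SB5_wt h1.fin h1.hom β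
  unfold ch
  simp only [h2]

theorem finrank_tauH (s t : Multiset ℕ) :
    Module.finrank ℚ ↥((V N (gc m) s * V N (hc m) t).map (tauH N m).toLinearMap) =
      Module.finrank ℚ ↥(V N (gc m) s * V N (hc m) t) := by
  rw [← SB5_eq_lin]
  exact LinearEquiv.finrank_map_eq (SB5_eq N m).toLinearEquiv _

end MP967.Sym
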