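import Pool.Agent.Lib.MP_967fd7_co.Sym.Defs

/-! The spaces `Q` are stable. -/

namespace MP967.Sym

open MvPolynomial MP967.Rep

variable {N m : ℕ}

/-- The determinant with the rows in order. -/
theorem SB1_expand {k l : ℕ} (ρ : Fin k ⊕ Fin l → Fin N ⊕ Fin N) :
    gen N m k l ρ = ∑ σ : Equiv.Perm (Fin k ⊕ Fin l),
      Equiv.Perm.sign σ • ∏ i, ent N m (ρ i) (σ i) := by
  unfold gen
  rw [← Matrix.det_transpose, Matrix.det_apply]
  rfl

/-- `E a b` on an entry. -/
theorem SB1_ent (a b : Fin N) {k l : ℕ} (r : Fin N ⊕ Fin N) (c : Fin k ⊕ Fin l) :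
    E a b (ent N m r c) = if r = Sum.inl b then ent N m (Sum.inl a) c else
      if r = Sum.inr b then ent N m (Sum.inr a) c else 0 := by
  rcases r with r | r <;> rcases c with c | c
  · rw [if_neg (show ¬ (Sum.inl r : Fin N ⊕ Fin N) = Sum.inr b from Sum.inl_ne_inr)]
    change E a b (X (r, gc m c) : Pol N (Cols m)) = _
    rw [E_X]
    exact if_congr Sum.inl_injective.eq_iff.symm rfl rfl
  · rw [if_neg (show ¬ (Sum.inl r : Fin N ⊕ Fin N) = Sum.inr b from Sum.inl_ne_inr)]
    change E a b (0 : Pol N (Cols m)) = if _ then (0 : Pol N (Cols m)) else 0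
    rw [map_zero, ite_self]
  · rw [if_neg (show ¬ (Sum.inr r : Fin N ⊕ Fin N) = Sum.inl b from Sum.inr_ne_inl)]
    change E a b (X (r, hc m c) : Pol N (Cols m)) = _
    rw [E_X]
    exact if_congr Sum.inr_injective.eq_iff.symm rfl rfl
  · rw [if_neg (show ¬ (Sum.inr r : Fin N ⊕ Fin N) = Sum.inl b from Sum.inr_ne_inl)]
    change E a b (X (r, gc m c) : Pol N (Cols m)) = _
    rw [E_X]
    exact if_congr Sum.inr_injective.eq_iff.symm rfl rfl

/-- A product with one row replaced. -/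
theorem SB1_update {k l : ℕ} (ρ : Fin k ⊕ Fin l → Fin N ⊕ Fin N)
    (σ : Fin k ⊕ Fin l → Fin k ⊕ Fin l) (i : Fin k ⊕ Fin l) (r : Fin N ⊕ Fin N) :
    ∏ j, ent N m (Function.update ρ i r j) (σ j) =
      (∏ j ∈ Finset.univ.erase i, ent N m (ρ j) (σ j)) * ent N m r (σ i) := by
  rw [← Finset.prod_erase_mul Finset.univ _ (Finset.mem_univ i), Function.update_self]
  congr 1
  refine Finset.prod_congr rfl fun j hj => ?_
  rw [Function.update_of_ne (Finset.ne_of_mem_erase hj)]

/-- `E a b` on a product of entries. -/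
theorem SB1_prod (a b : Fin N) {k l : ℕ} (ρ : Fin k ⊕ Fin l → Fin N ⊕ Fin N)
    (σ : Fin k ⊕ Fin l → Fin k ⊕ Fin l) :
    E a b (∏ i, ent N m (ρ i) (σ i)) = ∑ i, (if ρ i = Sum.inl b then
      ∏ j, ent N m (Function.update ρ i (Sum.inl a) j) (σ j) else if ρ i = Sum.inr b then
      ∏ j, ent N m (Function.update ρ i (Sum.inr a) j) (σ j) else 0) := by
  rw [rc22_prod]
  refine Finset.sum_congr rfl fun i _ => ?_
  rw [SB1_ent, SB1_update, SB1_update]
  split_ifs
  · rfl
  · rfl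
  · exact mul_zero _

/-- Replace the row of the position `i`. -/
theorem E_gen (a b : Fin N) {k l : ℕ} (ρ : Fin k ⊕ Fin l → Fin N ⊕ Fin N) :
    E a b (gen N m k l ρ) = ∑ i, (if ρ i = Sum.inl b then gen N m k l
      (Function.update ρ i (Sum.inl a)) else if ρ i = Sum.inr b then gen N m k l
      (Function.update ρ i (Sum.inr a)) else 0) := by
  have h : ∀ σ : Equiv.Perm (Fin k ⊕ Fin l),
      E a b (Equiv.Perm.sign σ • ∏ i, ent N m (ρ i) (σ i)) = ∑ i, (if ρ i = Sum.inl b then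
        Equiv.Perm.sign σ • ∏ j, ent N m (Function.update ρ i (Sum.inl a) j) (σ j) else
        if ρ i = Sum.inr b then
        Equiv.Perm.sign σ • ∏ j, ent N m (Function.update ρ i (Sum.inr a) j) (σ j) else 0) := by
    intro σ
    have h1 : E a b (Equiv.Perm.sign σ • ∏ i, ent N m (ρ i) (σ i)) =
        Equiv.Perm.sign σ • E a b (∏ i, ent N m (ρ i) (σ i)) := by
      rw [Units.smul_def, Units.smul_def, map_zsmul]
    rw [h1, SB1_prod, Finset.smul_sum]
    refine Finset.sum_congr rfl fun i _ => ?_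
    split_ifs
    · rfl
    · rfl
    · exact smul_zero _
  rw [SB1_expand, map_sum, Finset.sum_congr rfl fun σ _ => h σ, Finset.sum_comm]
  refine Finset.sum_congr rfl fun i _ => ?_
  split_ifs
  · rw [SB1_expand]
  · rw [SB1_expand]
  · exact Finset.sum_const_zero

/-- The weight of an entry. -/
theorem SB1_wt {k l : ℕ} (r : Fin N ⊕ Fin N) (c : Fin k ⊕ Fin l) :
    IsWeightedHomogeneous rowWt (ent N m r c)
      (Finsupp.single (Sum.elim id id r : Fin N) 1 : Fin N →₀ ℕ) := by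
  rcases r with r | r <;> rcases c with c | c
  · exact isWeightedHomogeneous_X ℚ rowWt (r, gc m c)
  · exact isWeightedHomogeneous_zero ℚ rowWt _
  · exact isWeightedHomogeneous_X ℚ rowWt (r, hc m c)
  · exact isWeightedHomogeneous_X ℚ rowWt (r, gc m c)

theorem gen_wt {k l : ℕ} (ρ : Fin k ⊕ Fin l → Fin N ⊕ Fin N) :
    gen N m k l ρ ∈ wtSpace (Cols m) (∑ i, Finsupp.single (Sum.elim id id (ρ i)) 1) := by
  rw [SB1_expand]
  refine Submodule.sum_mem _ fun σ _ => ?_
  rw [Units.smul_def]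
  refine zsmul_mem ?_ _
  exact IsWeightedHomogeneous.prod Finset.univ (fun i => ent N m (ρ i) (σ i))
    (fun i => Finsupp.single (Sum.elim id id (ρ i)) 1) (fun i _ => SB1_wt (ρ i) (σ i))

theorem stable_Q (k l : ℕ) : Stable (Q N m k l) := by
  refine stable_span (Set.finite_range _) ?_ ?_
  · rintro _ ⟨ρ, rfl⟩
    exact ⟨_, gen_wt ρ⟩
  · rintro a b _ ⟨ρ, rfl⟩
    rw [E_gen]
    refine Submodule.sum_mem _ fun i _ => ?_
    split_ifs
    · exact Submodule.subset_span ⟨_, rfl⟩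
    · exact Submodule.subset_span ⟨_, rfl⟩
    · exact Submodule.zero_mem _

theorem stable_QQ (p : ℕ × ℕ) : Stable (QQ N m p) := stable_Q _ _

theorem QQ_swap (p : ℕ × ℕ) : QQ N m p.swap = QQ N m p := by
  unfold QQ
  rw [Prod.fst_swap, Prod.snd_swap, min_comm, max_comm]

end MP967.Sym
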